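import Pool.Agent.N856.JM.P.T1

/-!
# The 2-part of the formula of Birch and Swinnerton-Dyer for products of twists of three non-CM modular
# curves by different discriminants, and the joint law of the conditions

Let `A` be a product of elliptic curves of any number, each of them the quadratic twist of `X_0(15)`,
`X_0(21)` or `X_0(24)` by a negative fundamental discriminant, where the discriminants of the factors are
arbitrary and may be different. The twist by `-N` is allowed if in `ℚ(√-N)`
* for `X_0(15)`: `3` is not inert and `5` is not split,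
* for `X_0(21)`: `3` is not split and `7` is not inert,
* for `X_0(24)`: `3` is not inert, and `2` is inert or `8 ∣ N`.
Let `z = L(A, 1) #A(ℚ)_tors² / (V_∞ ∏ c_p)` be the order of `Ш(A/ℚ)` predicted by the formula in rank zero.
With no hypothesis on the rank or on `Ш` we prove:

1. `L(A, s)` is entire, `z` is the product of a rational number which is a unit at two and of the square of
   an integer `y`; `y` is odd if and only if `A(ℚ)` is finite and `Ш(A/ℚ)[2] = 0`, if and only if none of
   the class groups of the fields `ℚ(√-N)`, `-N` the discriminants of the factors, has an element of order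
   four, if and only if the 2-part of the formula holds with `z` a unit at two (`L(A, 1) ≠ 0`,
   `Ш(A/ℚ)[2^∞] = 0`).
2. **The joint law.** Let `D` be a finite set of pairs `(l, e)`, and let `n` be a random squarefree integer of
   any residue class `b` modulo any `M` such that, for all `(l, e)` in `D`, `n` is prime to `e`, `-n e` is an
   odd fundamental discriminant and the twist of `X_0(l)` by `-n e` is allowed. Let `T` be the set of the
   multipliers `e` and `V` any subset of `T`. The natural density of the `n` such that, for all the products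
   `A` of all dimensions of these twists at once, the 2-part holds (with `z` a unit at two) if and only if all
   the multipliers of the factors of `A` are in `V`, is `η^#V (1 - η)^(#T - #V)`,
   `η = ∏_{i ≥ 1} (1 - 2^{-i}) = 0.2888…`. In other words, the conditions for different multipliers are
   independent, also for curves which are not isogenous, and the conditions for the same multiplier and
   different curves are the same.
3. Such families exist for all numbers of factors and all the choices of the levels `15`, `21`, `24`, with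
   different prime multipliers.

The 2-part for one curve is joint work of many helpers (875 and others for level 15; 637, 877 and others for
level 21; 877, 373, 402 and others for level 24); the moments and the density of one condition are by
helper916, the linear algebra of several conditions after helpers 426, 588 and others; this file: helper856.
-/

set_option autoImplicit false
set_option linter.style.haveILetI false

open WeierstrassCurve MeasureTheory Filter Topology Finset

namespace Pool.Agent.Results.MP_dfae13_nt.JointTwistsOfProducts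

open scoped Classical

open Pool.Agent.TH841.SH.D (Sha)

/-! ### elliptic curves -/

/-- The curve given by the equation of `W` over the ring `R`. -/
abbrev base (W : WeierstrassCurve ℤ) (R : Type) [CommRing R] : WeierstrassCurve R :=
  W.map (Int.castRingHom R)

/-- `W` is a global minimal equation: `Δ ≠ 0` and `|Δ|` is minimal among the integral equations of the
same curve over `ℚ`. -/
def Minimal (W : WeierstrassCurve ℤ) : Prop :=
  W.Δ ≠ 0 ∧ ∀ (W' : WeierstrassCurve ℤ) (C : VariableChange ℚ), C • base W ℚ = base W' ℚ →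
    |W.Δ| ≤ |W'.Δ|

/-- The number of the affine points modulo `p`. -/
noncomputable def pts (W : WeierstrassCurve ℤ) (p : ℕ) : ℕ :=
  Nat.card {P : ZMod p × ZMod p // (base W (ZMod p)).toAffine.Equation P.1 P.2}

/-- `a_p = p + 1 - #W(𝔽_p)`, the points counted with the point at infinity. -/
noncomputable def a (W : WeierstrassCurve ℤ) (p : ℕ) : ℤ := p - pts W p

/-- The point `P` of `W` over `ℚ_p` reduces to a singular point of the curve modulo `p`: the coordinates
are integral and both partial derivatives of `y² + a₁ x y + a₃ y - x³ - a₂ x² - a₄ x - a₆` are in the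
maximal ideal. -/
def SingularReduction (W : WeierstrassCurve ℤ) (p : ℕ) [Fact p.Prime]
    (P : (base W ℚ_[p]).toAffine.Point) : Prop :=
  ∃ x y h, P = Affine.Point.some x y h ∧ ‖x‖ ≤ 1 ∧ ‖y‖ ≤ 1 ∧
    ‖W.a₁ * y - (3 * x ^ 2 + 2 * W.a₂ * x + W.a₄)‖ < 1 ∧ ‖2 * y + W.a₁ * x + W.a₃‖ < 1

/-- `c p` is the Tamagawa number `[W(ℚ_p) : W⁰(ℚ_p)]` for all primes `p`, where `W⁰(ℚ_p)` is the subgroup
of the points which do not have singular reduction; it is `1` if `p` does not divide `Δ`. -/
def IsTamagawa (W : WeierstrassCurve ℤ) (c : ℕ → ℕ) : Prop :=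
  ∀ (p : ℕ) [Fact p.Prime], (∃ H : AddSubgroup (base W ℚ_[p]).toAffine.Point,
    (∀ P, P ∈ H ↔ ¬ SingularReduction W p P) ∧ H.index = c p) ∧ (¬ (p : ℤ) ∣ W.Δ → c p = 1)

/-- The product of the Tamagawa numbers. -/
noncomputable def Tam (W : WeierstrassCurve ℤ) (c : ℕ → ℕ) : ℕ := ∏ p ∈ W.Δ.natAbs.primeFactors, c p

/-- `4 x³ + b₂ x² + 2 b₄ x + b₆ = (2 y + a₁ x + a₃)²`. -/
def cubic (W : WeierstrassCurve ℤ) (x : ℝ) : ℝ := 4 * x ^ 3 + W.b₂ * x ^ 2 + 2 * W.b₄ * x + W.b₆

/-- `Ω = ∫_{W(ℝ)} |ω|` with `ω = dx / (2 y + a₁ x + a₃)`, as an integral over `x`: two real points lie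
over each `x` with `cubic x > 0`. -/
noncomputable def Omega (W : WeierstrassCurve ℤ) : ℝ :=
  2 * ∫ x in {x : ℝ | 0 < cubic W x}, 1 / √(cubic W x)

/-- `-n` is a fundamental discriminant. -/
def FundNeg (n : ℕ) : Prop := (Squarefree n ∧ n % 4 = 3) ∨
  ∃ m : ℕ, n = 4 * m ∧ Squarefree m ∧ (m % 4 = 1 ∨ m % 4 = 2)

/-- The squarefree integer `m n` with `ℚ(√(m n)) = ℚ(√-n)`. -/
def m (n : ℕ) : ℤ := if n % 2 = 1 then -(n : ℤ) else -((n / 4 : ℕ) : ℤ)

/-- The quadratic twist of `X_0(15)` by `-n`: `y² + x y = x³ - ((7 m + 1)/4) x² - 9 m² x` if `n` is odd,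
`y² = x (x + 9 m) (x - 16 m)` if `n` is even. -/
def E15 (n : ℕ) : WeierstrassCurve ℤ :=
  if n % 2 = 1 then ⟨1, -((7 * m n + 1) / 4), 0, -(9 * (m n) ^ 2), 0⟩
  else ⟨0, -7 * m n, 0, -144 * (m n) ^ 2, 0⟩

/-- The quadratic twist of `X_0(21)` by `-n`: `y² + x y = x³ + ((25 m - 1)/4) x² + 9 m² x` if `n` is odd,
`y² = x (x - 9 m) (x + 7 m)` if `n` is even. -/
def E21 (n : ℕ) : WeierstrassCurve ℤ :=
  if n % 2 = 1 then ⟨1, (25 * m n - 1) / 4, 0, 9 * (m n) ^ 2, 0⟩
  else ⟨0, -2 * m n, 0, -63 * (m n) ^ 2, 0⟩

/-- The quadratic twist of `X_0(24)` by `-n`: `y² = x (x - m) (x + 3 m)`. -/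
def E24 (n : ℕ) : WeierstrassCurve ℤ := ⟨0, 2 * m n, 0, -3 * (m n) ^ 2, 0⟩

/-- The ideal class group of `ℚ(√-n)` has no element of order four. -/
def NoOrderFour (n : ℕ) : Prop :=
  ∀ (K : Type) [Field K] [NumberField K], Module.finrank ℚ K = 2 → (∃ s : K, s ^ 2 = (m n : K)) →
    ∀ c : ClassGroup (NumberField.RingOfIntegers K), orderOf c ≠ 4

/-! ### products of elliptic curves -/

section
variable {d : ℕ} (A : Fin d → WeierstrassCurve ℤ)

/-- The group of the rational points of the abelian variety `A = ∏ A i`. -/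
abbrev Points : Type := ∀ i, (base (A i) ℚ).toAffine.Point

/-- The Tate-Shafarevich group of the abelian variety `A = ∏ A i`. -/
abbrev ShaA : Type := ∀ i, Sha (base (A i) ℚ)

/-- `L` is the L-function of the product of the minimal equations `A i`: it is entire, and for
`Re s > 3/2` it is given by the Euler product with the factors
`∏ i, (1 - a_p(A i) p^(-s) + p^(1 - 2 s))⁻¹`, where the last term is absent if `p` divides the
discriminant of `A i`. -/
def IsL (L : ℂ → ℂ) : Prop :=
  Differentiable ℂ L ∧ ∀ s : ℂ, 3 / 2 < s.re →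
    HasProd (fun p : Nat.Primes => ∏ i, (1 - (a (A i) p : ℂ) * ((p : ℕ) : ℂ) ^ (-s) +
      (if ((p : ℕ) : ℤ) ∣ (A i).Δ then 0 else ((p : ℕ) : ℂ) ^ (1 - 2 * s)))⁻¹) (L s)

/-- The order of the torsion subgroup of `A(ℚ)`; the dual of `A` is isomorphic to `A`. -/
noncomputable def torsOrder : ℕ := Nat.card (AddCommGroup.torsion (Points A))

/-- `V_∞ = ∫_{A(ℝ)} |ω|`, `ω` the product of the invariant differentials of the minimal equations. -/
noncomputable def Vinf : ℝ := ∏ i, Omega (A i)

/-- The product of the Tamagawa numbers of `A`. -/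
noncomputable def TamA (c : Fin d → ℕ → ℕ) : ℕ := ∏ i, Tam (A i) (c i)

/-- The order of the Tate-Shafarevich group predicted by the formula in rank zero. -/
noncomputable def anOrder (l : ℂ) (c : Fin d → ℕ → ℕ) : ℂ :=
  l * (torsOrder A : ℂ) ^ 2 / ((Vinf A : ℝ) * (TamA A c : ℂ))

/-- `A(ℚ)` is finite and `Ш(A/ℚ)` has no element of order two. -/
def RankZeroShaTwo : Prop := Finite (Points A) ∧ ∀ x : ShaA A, 2 • x = 0 → x = 0

/-- The 2-part of the formula for `A`, in the case that the predicted order of `Ш` is a unit at two: the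
equations are minimal, `A(ℚ)` is finite, the 2-primary part of `Ш(A/ℚ)` is zero, `L(A, s)` is entire,
`L(A, 1) ≠ 0`, and the predicted order of `Ш` is a rational number which is a unit at two. -/
def TwoPart : Prop :=
  (∀ i, Minimal (A i)) ∧ Finite (Points A) ∧ (∀ (k : ℕ) (x : ShaA A), 2 ^ k • x = 0 → x = 0) ∧
  ∃ (L : ℂ → ℂ) (c : Fin d → ℕ → ℕ) (z : ℚ), IsL A L ∧ L 1 ≠ 0 ∧ (∀ i, IsTamagawa (A i) (c i)) ∧
    0 < TamA A c ∧ 0 < Vinf A ∧ 0 < torsOrder A ∧ anOrder A (L 1) c = z ∧ z ≠ 0 ∧
    padicValRat 2 z = 0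

/-- The statement for the abelian variety `A` and the condition `Q`. -/
def Formula (Q : Prop) : Prop :=
  (∀ i, Minimal (A i)) ∧
  (∃ (L : ℂ → ℂ) (c : Fin d → ℕ → ℕ) (w : ℚ) (y : ℤ), IsL A L ∧ (∀ i, IsTamagawa (A i) (c i)) ∧
    0 < TamA A c ∧ 0 < torsOrder A ∧ 0 < Vinf A ∧
    w ≠ 0 ∧ padicValRat 2 w = 0 ∧ anOrder A (L 1) c = ((w * (y : ℚ) ^ 2 : ℚ) : ℂ) ∧
    (Odd y ↔ RankZeroShaTwo A)) ∧
  (RankZeroShaTwo A ↔ Q) ∧ (RankZeroShaTwo A ↔ TwoPart A)

end

/-! ### the twists and the families -/

/-- The quadratic twist of `X_0(l)` by `-n`, for `l = 15`, `21`, `24`. -/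
def E (l n : ℕ) : WeierstrassCurve ℤ := if l = 15 then E15 n else if l = 21 then E21 n else E24 n

/-- The twist of `X_0(l)` by `-n` is allowed: `-n` is a fundamental discriminant and, in `ℚ(√-n)`,
* `l = 15`, `3` is not inert and `5` is not split, or
* `l = 21`, `3` is not split and `7` is not inert, or
* `l = 24`, `3` is not inert, and `2` is inert or `8 ∣ n`. -/
def Allowed (l n : ℕ) : Prop := FundNeg n ∧
  ((l = 15 ∧ n % 3 ≠ 1 ∧ (n % 5 = 0 ∨ n % 5 = 2 ∨ n % 5 = 3)) ∨
    (l = 21 ∧ n % 3 ≠ 2 ∧ (n % 7 = 0 ∨ n % 7 = 3 ∨ n % 7 = 5 ∨ n % 7 = 6)) ∨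
    (l = 24 ∧ n % 3 ≠ 1 ∧ (n % 8 = 3 ∨ n % 8 = 0)))

/-- The family for the set `D` of pairs `(l, e)` and the class of `b` modulo `M`: `n` is squarefree,
`n ≡ b` modulo `M`, and for all `(l, e)` in `D` the integer `n` is prime to `e`, `-n e` is an odd
fundamental discriminant and the twist of `X_0(l)` by `-n e` is allowed. -/
def Fam (D : Finset (ℕ × ℕ)) (M b n : ℕ) : Prop :=
  Squarefree n ∧ n % M = b % M ∧ ∀ x ∈ D, n.Coprime x.2 ∧ (n * x.2) % 4 = 3 ∧ Allowed x.1 (n * x.2)

/-- `n` has the pattern `V`: for all the products `A` of all dimensions of the twists of `X_0(l)` by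
`-n e`, `(l, e)` in `D`, the 2-part of the formula, with a predicted order of `Ш` which is a unit at two,
holds if and only if all the `e` which occur in `A` belong to `V`. -/
def Pattern (D : Finset (ℕ × ℕ)) (V : Finset ℕ) (n : ℕ) : Prop :=
  ∀ (d : ℕ) (x : Fin d → ℕ × ℕ), (∀ i, x i ∈ D) →
    (TwoPart (fun i => E (x i).1 (n * (x i).2)) ↔ ∀ i, (x i).2 ∈ V)

/-- `∏_{i ≥ 1} (1 - 2^{-i}) = 0.2888…` -/
noncomputable def eta : ℝ := ∏' i : ℕ, (1 - (1 / 2 : ℝ) ^ (i + 1))

/-- the number of the `n ≤ X` with the property `P` -/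
noncomputable def count (P : ℕ → Prop) (X : ℕ) : ℕ := ((Icc 1 X).filter fun n => P n).card

/-- among the numbers with the property `P`, those with the property `Q` have natural density `δ` -/
def HasDensity (P Q : ℕ → Prop) (δ : ℝ) : Prop :=
  Tendsto (fun X : ℕ => (count (fun n => P n ∧ Q n) X : ℝ) / (count P X : ℝ)) atTop (𝓝 δ)

/-- **Main theorem.** The formula and the criterion for all the products `A` of allowed twists of `X_0(15)`,
`X_0(21)`, `X_0(24)` by arbitrary discriminants; the joint law for all the patterns, in all the residue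
classes; the existence of the families for all the choices of the levels. -/
theorem result :
    (∀ (d : ℕ) (l N : Fin d → ℕ), (∀ i, Allowed (l i) (N i)) →
      Formula (fun i => E (l i) (N i)) (∀ i, NoOrderFour (N i))) ∧
    (∀ (D : Finset (ℕ × ℕ)) (M b : ℕ), 0 < M → (∃ n, Fam D M b n) →
      ∀ V : Finset ℕ, V ⊆ D.image Prod.snd → HasDensity (Fam D M b) (Pattern D V)
        (eta ^ V.card * (1 - eta) ^ (D.image Prod.snd \ V).card)) ∧
    (∀ (k : ℕ) (l : Fin k → ℕ), (∀ i, l i = 15 ∨ l i = 21 ∨ l i = 24) →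
      ∃ e : Fin k → ℕ, Function.Injective e ∧ (∀ i, (e i).Prime) ∧
        Fam (univ.image fun i => (l i, e i)) 1 0 227) ∧
    0.2887 < eta ∧ eta < 0.2889 :=
  Pool.Agent.N856.JM.P.main

end Pool.Agent.Results.MP_dfae13_nt.JointTwistsOfProducts
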