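import Pool.Agent.N871.S17.Asm
import Pool.Agent.N916.MO.Hg
import Pool.Agent.N871.S15.Tors
import Pool.Agent.N871.S15.OneV
import Pool.Agent.N974.T15.Ex5
import Pool.Agent.N875.S15.Dens
import Pool.Agent.N877.S21.Dens
import Pool.Agent.N973.P21G.Fin
import Pool.Agent.N973.P21G.To
import Pool.Agent.N973.P21G.Fo
import Pool.Agent.N875.X15.TwoPartTwistsX15Neg
import Pool.Agent.N637.P21.TwoPartTwistsX21Neg
import Pool.Agent.Results.MP_92892c_nt.TwoPartTwistsX24
import Pool.Agent.N877.P24.AllV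
import Pool.Agent.N916.AM.Fd
import Pool.Agent.N877.JX.Sets
import Pool.Agent.N809.JT.L17

/-!
# The 2-part of the formula of Birch and Swinnerton-Dyer for abelian varieties of every dimension:
# products of arbitrary quadratic twists of modular curves without complex multiplication

Let `A` be a product of `d` elliptic curves `A i`, each of them a quadratic twist by ANY squarefree
integer `m_i` of one of the curves
* `X_0(15)`, the curve `17a2 : y² + x y = x³ - 4 x² - x`, `X_0(21)`,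
or the twist of `X_0(24)` by a negative fundamental discriminant `-n` such that `2` is inert in `ℚ(√-n)` or
`8 ∣ n`, and `3` is not inert.  These four curves have no complex multiplication and no two of them are
isogenous. Let `z` be the order of `Ш(A/ℚ)` predicted by the formula in rank zero,
`z = L(A, 1) #A(ℚ)_tors² / (V_∞ ∏ c_p)`. With no hypothesis on the rank or on `Ш`, for all these `A`:
* `L(A, s)` is entire, and `z = y²` with an integer `y`;
* `y` is odd if and only if `A(ℚ)` is finite and `Ш(A/ℚ)[2] = 0`, if and only if the 2-part of the formula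
  holds for `A` with `z` a unit at two: `L(A, 1) ≠ 0`, `A(ℚ)` is finite, `Ш(A/ℚ)[2^∞] = 0`, `z` odd;
* for every `d` and every choice of `d` curves among the first three the natural density of the tuples
  `(m_1, …, m_d)` of squarefree integers for which this is the case is the product of the densities of the
  factors: `η / 2`, `α / 2`, `(137/256) η`, `η = ∏_{i ≥ 1} (1 - 2^{-i})`, `α = ∏_{i ≥ 1} (1 - 2^{1 - 2 i})`;
* let `A` be any product of copies of the first three curves, of any dimension, and let `A_m` be its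
  quadratic twist by the squarefree integer `m`: the natural density of the `m` for which this is the case
  for `A_m` is `η / 2`, `α / 2`, `(137/256) η` if only one of the curves occurs, `(433/1728) η α`,
  `(443/3072) η`, `(2461/9216) η α` for `{15, 17}`, `{15, 21}`, `{17, 21}`, and `(8065/110592) η α` if all
  three of them occur;
* let `-n` be a negative fundamental discriminant and let all the factors be twists by `-n` of `X_0(15)`
  (allowed if `3` is not inert and `5` is not split in `ℚ(√-n)`), of `X_0(21)` (`3` not split, `7` not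
  inert) or of `X_0(24)` (as above): then the condition holds if and only if the ideal class group of
  `ℚ(√-n)` has no element of order four, one and the same condition for all the `A` of all dimensions, and
  the natural density of these `n` in the family is `η = 0.2888…`.

The factors: `MP_9c97e9_nt.TwoPartTwistsX15` (helpers 875, 974, 871 and others),
`MP_4a9ea6_nt.TwoPartTwistsX17` (helpers 871, 969 and others), `MP_92892c_nt.TwoPartTwistsX21` and
`MP_92892c_nt.TwoPartTwistsX24` (see there). The densities: helpers 916, 809, 919; the joint densities: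
helpers 877, 809, 963, 972, 975. This file: helper877.
-/

set_option autoImplicit false
set_option linter.style.haveILetI false

open WeierstrassCurve MeasureTheory Filter Topology Finset

namespace Pool.Agent.Results.MP_dfae13_nt.TwoPartProducts

open scoped Classical

open Pool.Agent.TH841.SH.D (Sha)

/-! ### elliptic curves -/

/-- The curve given by the equation of `W` over the ring `R`. -/
abbrev base (W : WeierstrassCurve ℤ) (R : Type) [CommRing R] : WeierstrassCurve R :=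
  W.map (Int.castRingHom R)

/-- `W` is a global minimal equation: `Δ ≠ 0` and `|Δ|` is minimal among the integral equations of the
same curve over `ℚ`. -/
def Minimal (W : WeierstrassCurve ℤ) : Prop :=
  W.Δ ≠ 0 ∧ ∀ (W' : WeierstrassCurve ℤ) (C : VariableChange ℚ), C • base W ℚ = base W' ℚ →
    |W.Δ| ≤ |W'.Δ|

/-- The number of the affine points modulo `p`. -/
noncomputable def pts (W : WeierstrassCurve ℤ) (p : ℕ) : ℕ :=
  Nat.card {P : ZMod p × ZMod p // (base W (ZMod p)).toAffine.Equation P.1 P.2}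

/-- `a_p = p + 1 - #W(𝔽_p)`, the points counted with the point at infinity. -/
noncomputable def a (W : WeierstrassCurve ℤ) (p : ℕ) : ℤ := p - pts W p

/-- The point `P` of `W` over `ℚ_p` reduces to a singular point of the curve modulo `p`: the coordinates
are integral and both partial derivatives of `y² + a₁ x y + a₃ y - x³ - a₂ x² - a₄ x - a₆` are in the
maximal ideal. -/
def SingularReduction (W : WeierstrassCurve ℤ) (p : ℕ) [Fact p.Prime]
    (P : (base W ℚ_[p]).toAffine.Point) : Prop :=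
  ∃ x y h, P = Affine.Point.some x y h ∧ ‖x‖ ≤ 1 ∧ ‖y‖ ≤ 1 ∧
    ‖W.a₁ * y - (3 * x ^ 2 + 2 * W.a₂ * x + W.a₄)‖ < 1 ∧ ‖2 * y + W.a₁ * x + W.a₃‖ < 1

/-- `c p` is the Tamagawa number `[W(ℚ_p) : W⁰(ℚ_p)]` for all primes `p`, where `W⁰(ℚ_p)` is the subgroup
of the points which do not have singular reduction; it is `1` if `p` does not divide `Δ`. -/
def IsTamagawa (W : WeierstrassCurve ℤ) (c : ℕ → ℕ) : Prop :=
  ∀ (p : ℕ) [Fact p.Prime], (∃ H : AddSubgroup (base W ℚ_[p]).toAffine.Point,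
    (∀ P, P ∈ H ↔ ¬ SingularReduction W p P) ∧ H.index = c p) ∧ (¬ (p : ℤ) ∣ W.Δ → c p = 1)

/-- The product of the Tamagawa numbers. -/
noncomputable def Tam (W : WeierstrassCurve ℤ) (c : ℕ → ℕ) : ℕ := ∏ p ∈ W.Δ.natAbs.primeFactors, c p

/-- `4 x³ + b₂ x² + 2 b₄ x + b₆ = (2 y + a₁ x + a₃)²`. -/
def cubic (W : WeierstrassCurve ℤ) (x : ℝ) : ℝ := 4 * x ^ 3 + W.b₂ * x ^ 2 + 2 * W.b₄ * x + W.b₆

/-- `Ω = ∫_{W(ℝ)} |ω|` with `ω = dx / (2 y + a₁ x + a₃)`, as an integral over `x`: two real points lie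
over each `x` with `cubic x > 0`. -/
noncomputable def Omega (W : WeierstrassCurve ℤ) : ℝ :=
  2 * ∫ x in {x : ℝ | 0 < cubic W x}, 1 / √(cubic W x)

/-! ### products of elliptic curves -/

section
variable {d : ℕ} (A : Fin d → WeierstrassCurve ℤ)

/-- The group of the rational points of the abelian variety `A = ∏ A i`. -/
abbrev Points : Type := ∀ i, (base (A i) ℚ).toAffine.Point

/-- The Tate-Shafarevich group of the abelian variety `A = ∏ A i`. -/
abbrev ShaA : Type := ∀ i, Sha (base (A i) ℚ)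

/-- `L` is the L-function of the product of the minimal equations `A i`: it is entire, and for
`Re s > 3/2` it is given by the Euler product with the factors
`∏ i, (1 - a_p(A i) p^(-s) + p^(1 - 2 s))⁻¹`, where the last term is absent if `p` divides the
discriminant of `A i`. -/
def IsL (L : ℂ → ℂ) : Prop :=
  Differentiable ℂ L ∧ ∀ s : ℂ, 3 / 2 < s.re →
    HasProd (fun p : Nat.Primes => ∏ i, (1 - (a (A i) p : ℂ) * ((p : ℕ) : ℂ) ^ (-s) +
      (if ((p : ℕ) : ℤ) ∣ (A i).Δ then 0 else ((p : ℕ) : ℂ) ^ (1 - 2 * s)))⁻¹) (L s)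

/-- The order of the torsion subgroup of `A(ℚ)`; the dual of `A` is isomorphic to `A`. -/
noncomputable def torsOrder : ℕ := Nat.card (AddCommGroup.torsion (Points A))

/-- `V_∞ = ∫_{A(ℝ)} |ω|`, `ω` the product of the invariant differentials of the minimal equations. -/
noncomputable def Vinf : ℝ := ∏ i, Omega (A i)

/-- The product of the Tamagawa numbers of `A`. -/
noncomputable def TamA (c : Fin d → ℕ → ℕ) : ℕ := ∏ i, Tam (A i) (c i)

/-- The order of the Tate-Shafarevich group predicted by the formula in rank zero. -/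
noncomputable def anOrder (l : ℂ) (c : Fin d → ℕ → ℕ) : ℂ :=
  l * (torsOrder A : ℂ) ^ 2 / ((Vinf A : ℝ) * (TamA A c : ℂ))

/-- `A(ℚ)` is finite and `Ш(A/ℚ)` has no element of order two. -/
def RankZeroShaTwo : Prop := Finite (Points A) ∧ ∀ x : ShaA A, 2 • x = 0 → x = 0

/-- The 2-part of the formula for `A`, in the case that the predicted order of `Ш` is a unit at two: the
equations are minimal, `A(ℚ)` is finite, the 2-primary part of `Ш(A/ℚ)` is zero, `L(A, s)` is entire,
`L(A, 1) ≠ 0`, and the predicted order of `Ш` is a rational number which is a unit at two. -/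
def TwoPart : Prop :=
  (∀ i, Minimal (A i)) ∧ Finite (Points A) ∧ (∀ (k : ℕ) (x : ShaA A), 2 ^ k • x = 0 → x = 0) ∧
  ∃ (L : ℂ → ℂ) (c : Fin d → ℕ → ℕ) (z : ℚ), IsL A L ∧ L 1 ≠ 0 ∧ (∀ i, IsTamagawa (A i) (c i)) ∧
    0 < TamA A c ∧ 0 < Vinf A ∧ 0 < torsOrder A ∧ anOrder A (L 1) c = z ∧ z ≠ 0 ∧
    padicValRat 2 z = 0

end

/-! ### the twists -/

/-- The quadratic twist of `X_0(15)` by `m`: `y² + x y = x³ - ((7 m + 1)/4) x² - 9 m² x` if `m ≡ 1` modulo
`4`, `y² = x (x + 9 m) (x - 16 m)` otherwise. -/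
def E15 (m : ℤ) : WeierstrassCurve ℤ :=
  if m % 4 = 1 then ⟨1, -((7 * m + 1) / 4), 0, -(9 * m ^ 2), 0⟩ else ⟨0, -7 * m, 0, -144 * m ^ 2, 0⟩

/-- The quadratic twist of `y² + x y = x³ - 4 x² - x` (17a2) by `m`:
`y² + x y = x³ - ((15 m + 1)/4) x² - m² x` if `m ≡ 1` modulo `4`, `y² = x (x + m) (x - 16 m)` otherwise. -/
def E17 (m : ℤ) : WeierstrassCurve ℤ :=
  if m % 4 = 1 then ⟨1, -((15 * m + 1) / 4), 0, -(m ^ 2), 0⟩ else ⟨0, -15 * m, 0, -16 * m ^ 2, 0⟩

/-- The quadratic twist of `X_0(21)` by `m`: `y² + x y = x³ + ((25 m - 1)/4) x² + 9 m² x` if `m ≡ 1` modulo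
`4`, `y² = x (x - 9 m) (x + 7 m)` otherwise. -/
def E21 (m : ℤ) : WeierstrassCurve ℤ :=
  if m % 4 = 1 then ⟨1, (25 * m - 1) / 4, 0, 9 * m ^ 2, 0⟩ else ⟨0, -2 * m, 0, -63 * m ^ 2, 0⟩

/-- The quadratic twist of `X_0(24)` by `m`: `y² = x (x - m) (x + 3 m)`. -/
def E24 (m : ℤ) : WeierstrassCurve ℤ := ⟨0, 2 * m, 0, -3 * m ^ 2, 0⟩

/-- `-n` is a fundamental discriminant. -/
def FundNeg (n : ℕ) : Prop := (Squarefree n ∧ n % 4 = 3) ∨
  ∃ m : ℕ, n = 4 * m ∧ Squarefree m ∧ (m % 4 = 1 ∨ m % 4 = 2)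

/-- The squarefree integer `sf n` with `ℚ(√(sf n)) = ℚ(√-n)`. -/
def sf (n : ℕ) : ℤ := if n % 2 = 1 then -(n : ℤ) else -((n / 4 : ℕ) : ℤ)

/-- The twist of `X_0(15)` is allowed: `3` is not inert and `5` is not split in `ℚ(√-n)`. -/
def Is15 (n : ℕ) : Prop := n % 3 ≠ 1 ∧ (n % 5 = 0 ∨ n % 5 = 2 ∨ n % 5 = 3)

/-- The twist of `X_0(21)` is allowed: `3` is not split and `7` is not inert in `ℚ(√-n)`. -/
def Is21 (n : ℕ) : Prop := n % 3 ≠ 2 ∧ (n % 7 = 0 ∨ n % 7 = 3 ∨ n % 7 = 5 ∨ n % 7 = 6)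

/-- The twist of `X_0(24)` is allowed: `2` is inert or `8 ∣ n`, and `3` is not inert in `ℚ(√-n)`. -/
def Is24 (n : ℕ) : Prop := (n % 8 = 3 ∨ 8 ∣ n) ∧ n % 3 ≠ 1

/-- The factors of the abelian varieties: all the twists of the first three curves, and the allowed twists
of `X_0(24)`. -/
def IsFactor (W : WeierstrassCurve ℤ) : Prop :=
  (∃ m : ℤ, Squarefree m ∧ (W = E15 m ∨ W = E17 m ∨ W = E21 m)) ∨
    ∃ n : ℕ, FundNeg n ∧ Is24 n ∧ W = E24 (sf n)

/-- The statement for the product `A`. -/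
def Formula {d : ℕ} (A : Fin d → WeierstrassCurve ℤ) : Prop :=
  (∀ i, Minimal (A i)) ∧
  (∃ (L : ℂ → ℂ) (c : Fin d → ℕ → ℕ) (y : ℤ), IsL A L ∧ (∀ i, IsTamagawa (A i) (c i)) ∧
    0 < TamA A c ∧ 0 < torsOrder A ∧ 0 < Vinf A ∧ anOrder A (L 1) c = (y : ℂ) ^ 2 ∧
    (Odd y ↔ RankZeroShaTwo A)) ∧
  (RankZeroShaTwo A ↔ TwoPart A)

/-! ### arbitrary twists: the densities -/

/-- `0`, `1`, `2` for the curves `X_0(15)`, 17a2, `X_0(21)`: the twist by `m`. -/
def curve (l : Fin 3) (m : ℤ) : WeierstrassCurve ℤ :=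
  if l = 0 then E15 m else if l = 1 then E17 m else E21 m

/-- `∏_{i ≥ 1} (1 - 2^{-i})`. -/
noncomputable def eta : ℝ := ∏' i : ℕ, (1 - (1 / 2 : ℝ) ^ (i + 1))

/-- `∏_{i ≥ 1} (1 - 2^{1 - 2 i})`. -/
noncomputable def alpha : ℝ := ∏' i : ℕ, (1 - (1 / 2 : ℝ) ^ (2 * i + 1))

/-- The densities for the three curves. -/
noncomputable def dens (l : Fin 3) : ℝ :=
  if l = 0 then eta / 2 else if l = 1 then alpha / 2 else 137 / 256 * eta

/-- The number of the tuples of squarefree integers `m_1, …, m_d` with `|m_i| ≤ X`. -/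
noncomputable def totalT (d X : ℕ) : ℕ :=
  ((Fintype.piFinset fun _ : Fin d => Icc (-(X : ℤ)) X).filter fun m => ∀ i, Squarefree (m i)).card

/-- The number of these tuples for which the 2-part of the formula holds for the product of the twists by
`m_i` of the curves `l i`, with a predicted order which is a unit at two. -/
noncomputable def goodT {d : ℕ} (l : Fin d → Fin 3) (X : ℕ) : ℕ :=
  ((Fintype.piFinset fun _ : Fin d => Icc (-(X : ℤ)) X).filter fun m =>
    (∀ i, Squarefree (m i)) ∧ TwoPart fun i => curve (l i) (m i)).card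

/-! ### twists of a fixed product: the densities -/

/-- The number of the squarefree integers `m` with `|m| ≤ X`. -/
noncomputable def totalS (X : ℕ) : ℕ := ((Icc (-(X : ℤ)) X).filter fun m => Squarefree m).card

/-- The number of these `m` for which the 2-part of the formula holds for the twist by `m` of the product
of the curves `l i`, with a predicted order which is a unit at two. -/
noncomputable def goodS {d : ℕ} (l : Fin d → Fin 3) (X : ℕ) : ℕ :=
  ((Icc (-(X : ℤ)) X).filter fun m => Squarefree m ∧ TwoPart fun i => curve (l i) m).card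

/-- The densities, `S` the set of the curves which occur. -/
noncomputable def jdens (S : Finset (Fin 3)) : ℝ :=
  if S = {0} then eta / 2 else if S = {1} then alpha / 2 else if S = {2} then 137 / 256 * eta
  else if S = {0, 1} then 433 / 1728 * (eta * alpha) else if S = {0, 2} then 443 / 3072 * eta
  else if S = {1, 2} then 2461 / 9216 * (eta * alpha) else 8065 / 110592 * (eta * alpha)

/-! ### twists by the same negative discriminant -/

/-- The family of the discriminants. -/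
def Family (n : ℕ) : Prop := FundNeg n ∧ (Is15 n ∨ Is21 n ∨ Is24 n)

/-- `A` is a product of allowed twists by `-n`. -/
def IsTwist (n : ℕ) {d : ℕ} (A : Fin d → WeierstrassCurve ℤ) : Prop :=
  0 < d ∧ ∀ i, (Is15 n ∧ A i = E15 (sf n)) ∨ (Is21 n ∧ A i = E21 (sf n)) ∨ (Is24 n ∧ A i = E24 (sf n))

/-- The ideal class group of `ℚ(√-n)` has no element of order four. -/
def NoOrderFour (n : ℕ) : Prop :=
  ∀ (K : Type) [Field K] [NumberField K], Module.finrank ℚ K = 2 → (∃ s : K, s ^ 2 = (sf n : K)) →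
    ∀ c : ClassGroup (NumberField.RingOfIntegers K), orderOf c ≠ 4

/-- The number of the `n ≤ X` of the family. -/
noncomputable def total (X : ℕ) : ℕ := ((Icc 1 X).filter fun n => Family n).card

/-- The number of the `n ≤ X` of the family for which the 2-part of the formula holds, with a predicted
order which is a unit at two, for all the products of twists of all dimensions. -/
noncomputable def good (X : ℕ) : ℕ := ((Icc 1 X).filter fun n => Family n ∧
  ∀ (d : ℕ) (A : Fin d → WeierstrassCurve ℤ), IsTwist n A → TwoPart A).card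

section proof

open Pool.Agent.N916.TE (FD Go)
open Pool.Agent.N875.X15 (Fin2 fin2_pow)

/-- one elliptic curve: the condition -/
def RZ (W : WeierstrassCurve ℤ) : Prop :=
  Finite (base W ℚ).toAffine.Point ∧ ∀ x : Sha (base W ℚ), 2 • x = 0 → x = 0

/-- one elliptic curve -/
def Data (W : WeierstrassCurve ℤ) : Prop :=
  Minimal W ∧ ∃ (L : ℂ → ℂ) (c : ℕ → ℕ) (y : ℤ),
    (Differentiable ℂ L ∧ ∀ s : ℂ, 3 / 2 < s.re →
      HasProd (fun p : Nat.Primes => (1 - (a W p : ℂ) * ((p : ℕ) : ℂ) ^ (-s) +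
      (if ((p : ℕ) : ℤ) ∣ W.Δ then 0 else ((p : ℕ) : ℂ) ^ (1 - 2 * s)))⁻¹) (L s)) ∧
    IsTamagawa W c ∧ 0 < Tam W c ∧
    0 < Nat.card (AddCommGroup.torsion (base W ℚ).toAffine.Point) ∧ 0 < Omega W ∧
    L 1 * (Nat.card (AddCommGroup.torsion (base W ℚ).toAffine.Point) : ℂ) ^ 2 =
      (y : ℂ) ^ 2 * ((Omega W : ℝ) * (Tam W c : ℂ)) ∧ (Odd y ↔ RZ W)

lemma two_iff {A : Type} [AddCommGroup A] : (∀ x : A, 2 • x = 0 → x = 0) ↔
    ∀ x : A, x + x = 0 → x = 0 := by
  refine forall_congr' fun x => ?_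
  rw [two_nsmul]

lemma rz_iff (W : WeierstrassCurve ℤ) : RZ W ↔ Fin2 (base W ℚ) := and_congr Iff.rfl two_iff

lemma rz_pow {W : WeierstrassCurve ℤ} (h : RZ W) (k : ℕ) (x : Sha (base W ℚ))
    (hx : 2 ^ k • x = 0) : x = 0 := fin2_pow ((rz_iff W).1 h) k x hx

/-- the torsion of a finite product -/
theorem card_torsion_pi {d : ℕ} (G : Fin d → Type) [∀ i, AddCommGroup (G i)] :
    Nat.card (AddCommGroup.torsion (∀ i, G i)) = ∏ i, Nat.card (AddCommGroup.torsion (G i)) := by
  rw [← Nat.card_pi]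
  refine Nat.card_congr ⟨fun x i => ⟨x.1 i, ?_⟩, fun x => ⟨fun i => (x i).1, ?_⟩, fun x => rfl,
    fun x => rfl⟩
  · have h := x.2
    rw [AddCommGroup.mem_torsion, isOfFinAddOrder_iff_nsmul_eq_zero] at h ⊢
    obtain ⟨n, hn, h⟩ := h
    exact ⟨n, hn, by rw [← Pi.smul_apply, h]; rfl⟩
  · have h : ∀ i, IsOfFinAddOrder (x i).1 := fun i => (x i).2
    rw [AddCommGroup.mem_torsion, isOfFinAddOrder_iff_nsmul_eq_zero]
    refine ⟨∏ i, addOrderOf (x i).1, Finset.prod_pos fun i _ => (h i).addOrderOf_pos, ?_⟩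
    funext i
    rw [Pi.smul_apply, Pi.zero_apply]
    obtain ⟨m, hm⟩ := Finset.dvd_prod_of_mem (fun i => addOrderOf (x i).1) (Finset.mem_univ i)
    show (∏ i, addOrderOf (x i).1) • (x i).1 = 0
    rw [hm, mul_comm, mul_smul, addOrderOf_nsmul_eq_zero, smul_zero]

theorem rank_iff_all {d : ℕ} (A : Fin d → WeierstrassCurve ℤ) : RankZeroShaTwo A ↔ ∀ i, RZ (A i) := by
  constructor
  · rintro ⟨h1, h2⟩ i
    refine ⟨?_, fun x hx => ?_⟩
    · exact Finite.of_injective (fun P => (Pi.single i P : Points A))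
        (Pi.single_injective (M := fun i => (base (A i) ℚ).toAffine.Point) i)
    · have h3 := h2 (Pi.single i x) (by
        rw [← Pi.single_smul, hx, Pi.single_zero])
      have h4 := congrFun h3 i
      rwa [Pi.single_eq_same] at h4
  · intro h1
    refine ⟨?_, fun x hx => ?_⟩
    · have := fun i => (h1 i).1
      exact Pi.finite
    · funext i
      exact (h1 i).2 (x i) (by rw [← Pi.smul_apply, hx]; rfl)

theorem formula_of {d : ℕ} {A : Fin d → WeierstrassCurve ℤ} (h : ∀ i, Data (A i)) : Formula A := by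
  have hmin := fun i => (h i).1
  choose L c y hL hc hT ht hΩ hv hy using fun i => (h i).2
  have hto : torsOrder A = ∏ i, Nat.card (AddCommGroup.torsion (base (A i) ℚ).toAffine.Point) :=
    card_torsion_pi _
  have htp : 0 < torsOrder A := by
    rw [hto]
    exact Finset.prod_pos fun i _ => ht i
  have hVp : 0 < Vinf A := Finset.prod_pos fun i _ => hΩ i
  have hTp : 0 < TamA A c := Finset.prod_pos fun i _ => hT i
  have hIsL : IsL A (fun s => ∏ i, L i s) := by
    refine ⟨?_, fun s hs' => ?_⟩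
    · have h5 : ∀ i ∈ (Finset.univ : Finset (Fin d)), Differentiable ℂ (L i) := fun i _ => (hL i).1
      exact Differentiable.fun_finsetProd h5
    · exact hasProd_prod fun i _ => (hL i).2 s hs'
  set Y : ℤ := ∏ i, y i with hY
  have hYo : Odd Y ↔ RankZeroShaTwo A := by
    have h6 : Odd Y ↔ ∀ i, Odd (y i) := by
      have : ∀ s : Finset (Fin d), Odd (∏ i ∈ s, y i) ↔ ∀ i ∈ s, Odd (y i) := by
        intro s
        induction s using Finset.induction_on with
        | empty => simp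
        | insert j s hj ih =>
          rw [Finset.prod_insert hj, Int.odd_mul, ih]
          simp
      rw [hY, this]
      simp
    rw [h6, rank_iff_all]
    exact forall_congr' hy
  have hVC : ((Vinf A : ℝ) : ℂ) ≠ 0 := by exact_mod_cast hVp.ne'
  have hTC : ((TamA A c : ℕ) : ℂ) ≠ 0 := by exact_mod_cast hTp.ne'
  have han : anOrder A (∏ i, L i 1) c = (Y : ℂ) ^ 2 := by
    unfold anOrder
    rw [div_eq_iff (mul_ne_zero hVC hTC), hto]
    unfold Vinf TamA
    rw [hY]
    push_cast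
    rw [← Finset.prod_pow, ← Finset.prod_pow, ← Finset.prod_mul_distrib, ← Finset.prod_mul_distrib,
      ← Finset.prod_mul_distrib]
    exact Finset.prod_congr rfl fun i _ => hv i
  refine ⟨hmin, ⟨fun s => ∏ i, L i s, c, Y, hIsL, hc, hTp, htp, hVp, han, hYo⟩, fun hR => ?_,
    fun hP => ?_⟩
  · have hY1 := hYo.2 hR
    have hY0 : Y ≠ 0 := by
      rintro h0
      rw [h0] at hY1
      exact absurd hY1 (by decide)
    have hYq : (Y : ℚ) ≠ 0 := by exact_mod_cast hY0
    refine ⟨hmin, hR.1, fun k x hx => ?_, fun s => ∏ i, L i s, c, (Y : ℚ) ^ 2, hIsL, ?_, hc,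
      hTp, hVp, htp, by rw [han]; push_cast; rfl, pow_ne_zero 2 hYq, ?_⟩
    · funext i
      exact rz_pow ((rank_iff_all A).1 hR i) k (x i) (by rw [← Pi.smul_apply, hx]; rfl)
    · intro h0
      have h0' : ∏ i, L i 1 = 0 := h0
      rw [h0'] at han
      unfold anOrder at han
      rw [zero_mul, zero_div] at han
      have h3 : (Y : ℂ) ^ 2 ≠ 0 := pow_ne_zero 2 (by exact_mod_cast hY0)
      exact h3 han.symm
    · have hfact : Fact (Nat.Prime 2) := ⟨Nat.prime_two⟩
      have hv2 : padicValRat 2 (Y : ℚ) = 0 := by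
        rw [padicValRat.of_int]
        have : padicValInt 2 Y = 0 := by
          refine padicValInt.eq_zero_of_not_dvd ?_
          intro hd
          have h5 := Int.odd_iff.1 hY1
          omega
        rw [this]
        rfl
      rw [padicValRat.pow, hv2]
      simp
  · refine ⟨hP.2.1, fun x hx => hP.2.2.1 1 x ?_⟩
    rwa [pow_one]

/-! ### the factors -/

lemma omega_eq (W : WeierstrassCurve ℤ) : Omega W = Pool.Agent.Y700.Omega W := by
  unfold Omega Pool.Agent.Y700.Omega
  rw [← integral_const_mul]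
  show ∫ x in {x : ℝ | 0 < Pool.Agent.Y700.psi W x}, 2 * (1 / √(Pool.Agent.Y700.psi W x)) = _
  congr 1
  funext x
  rw [mul_one_div]

/-- the Tamagawa numbers -/
noncomputable def cT (W : WeierstrassCurve ℤ) (p : ℕ) : ℕ :=
  if h : p.Prime then (haveI := Fact.mk h; Pool.Agent.Y700.tam W p) else 1

lemma isTam (W : WeierstrassCurve ℤ) : IsTamagawa W (cT W) := by
  intro p hp
  have hc : cT W p = Pool.Agent.Y700.tam W p := by
    unfold cT
    rw [dif_pos hp.out]
  refine ⟨⟨Pool.Agent.Y700.E0 W p, fun P => ?_, by rw [hc]; rfl⟩, fun h => ?_⟩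
  · rw [Pool.Agent.Y809.BSD14.t_E0 W p P]
    constructor
    · rintro h ⟨x, y, h1, rfl, h2⟩
      exact h x y h1 rfl h2
    · intro h x y h1 h2 h3
      exact h ⟨x, y, h1, h2, h3⟩
  · rw [hc]
    exact Pool.Agent.Y809.BSD14.t_TGOOD W p h

lemma tam_eq (W : WeierstrassCurve ℤ) : Tam W (cT W) = Pool.Agent.Y700.tamProd W := rfl

theorem data_of {W : WeierstrassCurve ℤ} (hmin : Minimal W) {t : ℕ} (ht : 0 < t)
    (hto : Nat.card (AddCommGroup.torsion (base W ℚ).toAffine.Point) = t)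
    (hΩ : 0 < Pool.Agent.Y700.Omega W) (hT : 0 < Pool.Agent.Y700.tamProd W) {f : ℂ → ℂ} {y : ℤ}
    (hf : Pool.Agent.Y700.IsL W f) (hy : Odd y ↔ Fin2 (base W ℚ))
    (hv : f 1 * (t : ℂ) ^ 2 = (y : ℂ) ^ 2 * (((Pool.Agent.Y700.Omega W : ℝ) : ℂ) *
      ((Pool.Agent.Y700.tamProd W : ℕ) : ℂ))) : Data W := by
  refine ⟨hmin, f, cT W, y, hf, isTam W, hT, by rw [hto]; exact ht, by rw [omega_eq]; exact hΩ, ?_,
    hy.trans (rz_iff W).symm⟩
  rw [hto, omega_eq, tam_eq]
  exact hv

theorem data17 {m : ℤ} (hs : Squarefree m) : Data (E17 m) := by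
  obtain ⟨hmin, ht, htor, hΩ, f, y, hf, hy, hval⟩ := Pool.Agent.N871.S17.strong hs
  refine data_of hmin (t := 4) (by norm_num) htor hΩ ?_ hf hy ?_
  · show 0 < Pool.Agent.Y700.tamProd (Pool.Agent.N871.S17.EE m)
    rw [ht]
    unfold Pool.Agent.N871.S17.t17
    refine Nat.mul_pos (pow_pos (by norm_num) _) ?_
    split_ifs <;> norm_num
  · show f 1 * ((4 : ℕ) : ℂ) ^ 2 = (y : ℂ) ^ 2 *
      (((Pool.Agent.Y700.Omega (Pool.Agent.N871.S17.EE m) : ℝ) : ℂ) *
        ((Pool.Agent.Y700.tamProd (Pool.Agent.N871.S17.EE m) : ℕ) : ℂ))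
    rw [ht, ← hval]
    norm_num

theorem tam15 {m : ℤ} (hs : Squarefree m) : 0 < Pool.Agent.Y700.tamProd (E15 m) := by
  show 0 < Pool.Agent.Y700.tamProd (Pool.Agent.N218.T15.EE m)
  rw [Pool.Agent.N218.T15.tamProd_EE hs]
  unfold Pool.Agent.N218.T15.t3 Pool.Agent.N218.T15.t5
  refine Nat.mul_pos (pow_pos (by norm_num) _) (Nat.mul_pos ?_ ?_) <;> split_ifs <;> norm_num

theorem tam21 {m : ℤ} (hs : Squarefree m) : 0 < Pool.Agent.Y700.tamProd (E21 m) := by
  show 0 < Pool.Agent.Y700.tamProd (Pool.Agent.N218.T21.EE m)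
  rw [Pool.Agent.N218.T21.tamProd_EE hs]
  unfold Pool.Agent.N218.T21.t3 Pool.Agent.N218.T21.t7
  refine Nat.mul_pos (pow_pos (by norm_num) _) (Nat.mul_pos ?_ ?_) <;> split_ifs <;> norm_num

theorem data15 {m : ℤ} (hs : Squarefree m) : Data (E15 m) := by
  have hmin : Minimal (E15 m) := Pool.Agent.N218.T15.min_EE hs
  by_cases h1 : m = 1
  · subst h1
    obtain ⟨hΩ, f, hf, hv⟩ := Pool.Agent.N871.S15.exact_one
    refine data_of hmin (t := 8) (by norm_num) Pool.Agent.N871.S15.tors_EE_one hΩ (tam15 hs) hf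
      (y := 1) (iff_of_true (by decide) Pool.Agent.N871.S15.fin2_one) ?_
    rw [hv]
    push_cast
    show _ = (1 : ℂ) ^ 2 * (((Pool.Agent.Y700.Omega (Pool.Agent.N218.T15.EE 1) : ℝ) : ℂ) *
      ((Pool.Agent.Y700.tamProd (Pool.Agent.N218.T15.EE 1) : ℕ) : ℂ))
    ring
  by_cases h2 : m = -1
  · subst h2
    obtain ⟨hΩ, f, hf, hv⟩ := Pool.Agent.N871.S15.exact_neg_one
    refine data_of hmin (t := 8) (by norm_num) Pool.Agent.N871.S15.tors_EE_neg_one hΩ (tam15 hs) hf
      (y := 1) (iff_of_true (by decide) Pool.Agent.N871.S15.fin2_neg_one) ?_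
    rw [hv]
    push_cast
    show _ = (1 : ℂ) ^ 2 * (((Pool.Agent.Y700.Omega (Pool.Agent.N218.T15.EE (-1)) : ℝ) : ℂ) *
      ((Pool.Agent.Y700.tamProd (Pool.Agent.N218.T15.EE (-1)) : ℕ) : ℂ))
    ring
  obtain ⟨hΩ, f, y, hf, hy, hv⟩ := Pool.Agent.N974.T15.exact15 hs h1 h2
  refine data_of hmin (t := 4) (by norm_num) (Pool.Agent.N871.S15.tors_EE hs h1 h2) hΩ (tam15 hs) hf
    hy ?_
  rw [hv]
  push_cast
  show _ = (y : ℂ) ^ 2 * (((Pool.Agent.Y700.Omega (Pool.Agent.N218.T15.EE m) : ℝ) : ℂ) *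
    ((Pool.Agent.Y700.tamProd (Pool.Agent.N218.T15.EE m) : ℕ) : ℂ))
  ring

theorem data21 {m : ℤ} (hs : Squarefree m) : Data (E21 m) := by
  have hmin : Minimal (E21 m) := Pool.Agent.N218.T21.min_EE hs
  by_cases h1 : m = 1
  · subst h1
    obtain ⟨hΩ, f, hf, hv⟩ := Pool.Agent.N973.P21G.one_valX
    refine data_of hmin (t := 8) (by norm_num) Pool.Agent.N973.P21G.tor_eight hΩ (tam21 hs) hf
      (y := 1) (iff_of_true (by decide) Pool.Agent.N973.P21G.fin2_one) ?_
    rw [hv]
    push_cast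
    show _ = (1 : ℂ) ^ 2 * (((Pool.Agent.Y700.Omega (Pool.Agent.N218.T21.EE 1) : ℝ) : ℂ) *
      ((Pool.Agent.Y700.tamProd (Pool.Agent.N218.T21.EE 1) : ℕ) : ℂ))
    ring
  obtain ⟨hΩ, f, y, hf, hy, hv⟩ := Pool.Agent.N973.P21G.vl_allX hs h1
  refine data_of hmin (t := 4) (by norm_num) (Pool.Agent.N973.P21G.tor_four m hs h1) hΩ (tam21 hs) hf
    (hy.trans (Pool.Agent.N877.S21.fin2_EE hs h1).symm) ?_
  rw [hv]
  push_cast
  show _ = (y : ℂ) ^ 2 * (((Pool.Agent.Y700.Omega (Pool.Agent.N218.T21.EE m) : ℝ) : ℂ) *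
    ((Pool.Agent.Y700.tamProd (Pool.Agent.N218.T21.EE m) : ℕ) : ℂ))
  ring

theorem fam24 {n : ℕ} (h : FundNeg n) (h24 : Is24 n) :
    Pool.Agent.Results.MP_92892c_nt.TwoPartTwistsX24.Family n := ⟨h, h24⟩

theorem m_sf (n : ℕ) :
    sf n = -(Pool.Agent.Results.MP_92892c_nt.TwoPartTwistsX24.sf n : ℤ) := by
  unfold sf Pool.Agent.Results.MP_92892c_nt.TwoPartTwistsX24.sf
  split_ifs <;> rfl

theorem E24_eq (n : ℕ) :
    Pool.Agent.Results.MP_92892c_nt.TwoPartTwistsX24.twist
      (Pool.Agent.Results.MP_92892c_nt.TwoPartTwistsX24.sf n) = E24 (sf n) := by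
  unfold Pool.Agent.Results.MP_92892c_nt.TwoPartTwistsX24.twist E24
  rw [m_sf n]
  congr 1 <;> ring

theorem data24' {n : ℕ} (h : FundNeg n) (h24 : Is24 n) :
    Data (E24 (sf n)) ∧ (RZ (E24 (sf n)) ↔ Go n) := by
  have h' := fam24 h h24
  have hg := Pool.Agent.Results.MP_92892c_nt.TwoPartTwistsX24.good_sf h'
  rw [Pool.Agent.Results.MP_92892c_nt.TwoPartTwistsX24.go_iff h', ← E24_eq n]
  set k := Pool.Agent.Results.MP_92892c_nt.TwoPartTwistsX24.sf n with hk
  have hrk := Pool.Agent.Results.MP_92892c_nt.TwoPartTwistsX24.rank_iff hg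
  obtain ⟨y, ⟨L, hL1, hL2, hL3, hL4, hL5⟩, hy⟩ :=
    Pool.Agent.N877.P24.AllV.value_all hg.1 hg.2.1 hg.2.2
  have hW : Pool.Agent.N971.MF.W k = Pool.Agent.Results.MP_92892c_nt.TwoPartTwistsX24.twist k :=
    Pool.Agent.Results.MP_92892c_nt.TwoPartTwistsX24.W_eq k
  have hom := Pool.Agent.Results.MP_92892c_nt.TwoPartTwistsX24.omega_eq k
  have htor : Pool.Agent.Results.MP_92892c_nt.TwoPartTwistsX24.torsOrder
      (Pool.Agent.Results.MP_92892c_nt.TwoPartTwistsX24.twist k) = 4 :=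
    Pool.Agent.N373.P24x.tors_fourX hg.1
      (Pool.Agent.Results.MP_92892c_nt.TwoPartTwistsX24.Good.one_lt hg)
  set E := Pool.Agent.Results.MP_92892c_nt.TwoPartTwistsX24.twist k with hE
  have htor' : Nat.card (AddCommGroup.torsion (base E ℚ).toAffine.Point) = 4 := htor
  have hT : Tam E (Pool.Agent.N373.P24x.cX k) = Pool.Agent.N877.P24.All.Tm k :=
    Pool.Agent.N373.P24x.tamX hg.1
  have hΩe : Omega E = 2 * ∫ x in {x : ℝ |
      0 < Pool.Agent.N971.MF.cubic (Pool.Agent.N971.MF.W k) x},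
      1 / √(Pool.Agent.N971.MF.cubic (Pool.Agent.N971.MF.W k) x) := hom
  have hΩ : 0 < Omega E := by
    rw [hΩe]
    linarith
  rw [← hΩe] at hL3
  have hT0 : 0 < Pool.Agent.N877.P24.All.Tm k := by
    unfold Pool.Agent.N877.P24.All.Tm
    split_ifs <;> positivity
  refine ⟨⟨Pool.Agent.N373.P24x.minimalX hg.1 hg.2.1, L, Pool.Agent.N373.P24x.cX k, y,
    ⟨hL1, fun s hs => ?_⟩, Pool.Agent.N373.P24x.tamagawaX hg.1 hg.2.1, ?_, ?_, hΩ,
    ?_, hy.trans hrk.symm⟩, hrk⟩
  · have := hL5 s hs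
    rw [hW] at this
    exact this
  · rw [hT]
    exact hT0
  · rw [htor']
    norm_num
  · rw [hL3, htor', hT]
    push_cast
    ring

theorem data_factor {W : WeierstrassCurve ℤ} (h : IsFactor W) : Data W := by
  rcases h with ⟨m, hs, rfl | rfl | rfl⟩ | ⟨n, hn, h24, rfl⟩
  · exact data15 hs
  · exact data17 hs
  · exact data21 hs
  · exact (data24' hn h24).1

theorem data_curve (l : Fin 3) {m : ℤ} (hs : Squarefree m) : Data (curve l m) := by
  unfold curve
  split_ifs
  · exact data15 hs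
  · exact data17 hs
  · exact data21 hs

/-! ### the densities for arbitrary twists -/

lemma card_eq {p q : ℤ → Prop} {ip : DecidablePred p} {iq : DecidablePred q} {S : Finset ℤ}
    (h : ∀ m ∈ S, p m ↔ q m) :
    (@Finset.filter _ p ip S).card = (@Finset.filter _ q iq S).card := by
  refine congrArg Finset.card (Finset.ext fun m => ?_)
  rw [@Finset.mem_filter _ p ip, @Finset.mem_filter _ q iq]
  exact and_congr_right fun hm => h m hm

/-- one curve: the number of the good twists -/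
noncomputable def good1 (l : Fin 3) (X : ℕ) : ℕ :=
  ((Icc (-(X : ℤ)) X).filter fun m => Squarefree m ∧ RZ (curve l m)).card

noncomputable def total1 (X : ℕ) : ℕ := ((Icc (-(X : ℤ)) X).filter fun m => Squarefree m).card

theorem dens_one (l : Fin 3) :
    Tendsto (fun X : ℕ => (good1 l X : ℝ) / (total1 X : ℝ)) atTop (𝓝 (dens l)) := by
  have ht : ∀ X : ℕ, total1 X = Pool.Agent.N919.BS.NS (fun _ => True) X := fun X => by
    unfold Pool.Agent.N919.BS.NS total1
    exact (card_eq fun m _ => and_iff_left trivial).symm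
  fin_cases l
  · have h := Pool.Agent.N875.S15.dens
    refine h.congr fun X => congrArg₂ (fun a b : ℕ => (a : ℝ) / (b : ℝ)) ?_ (ht X).symm
    unfold Pool.Agent.N919.BS.NS good1
    refine card_eq fun m _ => and_congr_right fun hs => ?_
    rw [rz_iff]
    exact (Pool.Agent.N875.S15.fin2_EE hs).symm
  · have h := Pool.Agent.N916.MO.dens17_sf
    refine h.congr fun X => congrArg₂ (fun a b : ℕ => (a : ℝ) / (b : ℝ)) ?_ (ht X).symm
    unfold Pool.Agent.N919.BS.NS good1
    refine card_eq fun m _ => and_congr_right fun hs => ?_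
    rw [rz_iff]
    exact (Pool.Agent.N871.S17.good_EE hs).symm
  · have h := Pool.Agent.N877.S21.dens
    refine h.congr fun X => congrArg₂ (fun a b : ℕ => (a : ℝ) / (b : ℝ)) ?_ (ht X).symm
    unfold Pool.Agent.N919.BS.NS good1
    refine card_eq fun m _ => and_congr_right fun hs => ?_
    rw [rz_iff]
    exact Iff.rfl

theorem goodT_eq {d : ℕ} (l : Fin d → Fin 3) (X : ℕ) : goodT l X = ∏ i, good1 (l i) X := by
  unfold goodT good1
  rw [← Fintype.card_piFinset]
  refine congrArg Finset.card (Finset.ext fun m => ?_)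
  rw [Finset.mem_filter, Fintype.mem_piFinset, Fintype.mem_piFinset]
  simp only [Finset.mem_filter]
  constructor
  · rintro ⟨h1, h2, h3⟩ i
    have h4 := (formula_of fun i => data_curve (l i) (h2 i)).2.2
    exact ⟨h1 i, h2 i, (rank_iff_all _).1 (h4.2 h3) i⟩
  · intro h
    have h4 := (formula_of fun i => data_curve (l i) (h i).2.1).2.2
    exact ⟨fun i => (h i).1, fun i => (h i).2.1,
      h4.1 ((rank_iff_all _).2 fun i => (h i).2.2)⟩

theorem totalT_eq (d X : ℕ) : totalT d X = ∏ _i : Fin d, total1 X := by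
  unfold totalT total1
  rw [← Fintype.card_piFinset]
  refine congrArg Finset.card (Finset.ext fun m => ?_)
  rw [Finset.mem_filter, Fintype.mem_piFinset, Fintype.mem_piFinset]
  simp only [Finset.mem_filter]
  exact ⟨fun h i => ⟨h.1 i, h.2 i⟩, fun h => ⟨fun i => (h i).1, fun i => (h i).2⟩⟩

theorem density_tuples {d : ℕ} (l : Fin d → Fin 3) :
    Tendsto (fun X : ℕ => (goodT l X : ℝ) / (totalT d X : ℝ)) atTop (𝓝 (∏ i, dens (l i))) := by
  have h := tendsto_finsetProd Finset.univ (fun i (_ : i ∈ Finset.univ) => dens_one (l i))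
  refine h.congr fun X => ?_
  rw [goodT_eq, totalT_eq, Finset.prod_div_distrib]
  push_cast
  rfl

/-! ### the densities for the twists of a fixed product -/

theorem rz_curve (j : Fin 3) (m : ℤ) (hs : Squarefree m) (h1 : m ≠ 1) (h2 : m ≠ -1) :
    Pool.Agent.N809.JT.RR j m ↔ RZ (curve j m) := by
  fin_cases j
  · have e : RZ (curve 0 m) ↔ Pool.Agent.N809.PQ.Sg15 m := by
      have e1 : RZ (E15 m) ↔ Fin2 (Pool.Agent.N875.X15.EQm m) :=
        (rz_iff _).trans (Pool.Agent.N875.S15.fin2_EE hs)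
      refine e1.trans ((Pool.Agent.N875.D15.fin2_iff_sg15 hs).trans ?_)
      constructor
      · rintro (h | h | h)
        · exact h
        · exact absurd h h1
        · exact absurd h h2
      · exact Or.inl
    exact (Pool.Agent.N809.JT.k15 m hs h1 h2).symm.trans e.symm
  · have e : RZ (E17 m) ↔ Pool.Agent.N919.BS.Rt17 m ∧ Pool.Agent.N916.MO.G17 m :=
      (rz_iff _).trans (Pool.Agent.N871.S17.good_EE hs)
    exact (Pool.Agent.N809.JT.k17 m hs h1 h2).symm.trans e.symm
  · have e : RZ (E21 m) ↔ Pool.Agent.N809.PQ.Sg21 m :=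
      (rz_iff _).trans (Pool.Agent.N877.S21.fin2_EE hs h1)
    exact (Pool.Agent.N809.JT.k21 m hs h1 h2).symm.trans e.symm

theorem density_same {d : ℕ} (l : Fin d → Fin 3) (hd : 0 < d) :
    Tendsto (fun X : ℕ => (goodS l X : ℝ) / (totalS X : ℝ)) atTop
      (𝓝 (jdens (Finset.univ.image l))) := by
  have hS : (Finset.univ.image l).Nonempty := ⟨l ⟨0, hd⟩, mem_image_of_mem l (mem_univ _)⟩
  have h := Pool.Agent.N877.JX.lim_S (Pool.Agent.N809.JT.tot_sf
    (Pool.Agent.N877.JX.inp_of Pool.Agent.N809.JT.law17) Pool.Agent.N809.JT.dn_ns) _ hS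
  have h1 := Pool.Agent.N963.JT.NS_cl (Q := fun m => ∀ i, RZ (curve (l i) m)) (fun m hs e1 e2 => by
    constructor
    · intro h i
      exact (rz_curve _ m hs e1 e2).1 (h (l i) (mem_image_of_mem l (mem_univ i)))
    · intro h j hj
      obtain ⟨i, -, rfl⟩ := mem_image.1 hj
      exact (rz_curve _ m hs e1 e2).2 (h i)) h Pool.Agent.N969.Den.NS_top
  refine h1.congr fun X => congrArg₂ (fun a b : ℕ => (a : ℝ) / (b : ℝ)) ?_ ?_
  · unfold Pool.Agent.N919.BS.NS goodS
    refine card_eq fun m _ => and_congr_right fun hs => ?_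
    exact (rank_iff_all fun i => curve (l i) m).symm.trans
      (formula_of fun i => data_curve (l i) hs).2.2
  · unfold Pool.Agent.N919.BS.NS totalS
    exact card_eq fun m _ => and_iff_left trivial

/-! ### twists by the same discriminant -/

theorem sf_four {n : ℕ} (h : FundNeg n) : sf n % 4 = 1 ↔ n % 2 = 1 := by
  unfold sf
  rcases h with ⟨h1, h2⟩ | ⟨k, rfl, h1, h2⟩
  · have h3 : n % 2 = 1 := by omega
    rw [if_pos h3]
    exact ⟨fun _ => h3, fun _ => by omega⟩
  · have e : 4 * k / 4 = k := by omega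
    rw [if_neg (by omega), e]
    constructor <;> intro h5 <;> omega

theorem fam15 {n : ℕ} (h : FundNeg n) (h15 : Is15 n) :
    Pool.Agent.Results.MP_9c97e9_nt.TwoPartTwistsX15Neg.Family n := ⟨h, h15.1, h15.2⟩

theorem rz15 {n : ℕ} (h : FundNeg n) (h15 : Is15 n) : RZ (E15 (sf n)) ↔ Go n := by
  have h' := fam15 h h15
  obtain ⟨-, -, hS, -⟩ := Pool.Agent.Results.MP_9c97e9_nt.TwoPartTwistsX15Neg.criterion h'
  have e : E15 (sf n) = Pool.Agent.Results.MP_9c97e9_nt.TwoPartTwistsX15Neg.E n :=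
    if_congr (sf_four h) rfl rfl
  rw [e]
  exact hS.trans (Pool.Agent.Results.MP_9c97e9_nt.TwoPartTwistsX15Neg.go_iff h')

theorem fam21 {n : ℕ} (h : FundNeg n) (h21 : Is21 n) :
    Pool.Agent.Results.MP_92892c_nt.TwoPartTwistsX21Neg.Family n := ⟨h, h21.1, h21.2⟩

theorem rz21 {n : ℕ} (h : FundNeg n) (h21 : Is21 n) : RZ (E21 (sf n)) ↔ Go n := by
  have h' := fam21 h h21
  obtain ⟨-, -, hS, -⟩ := Pool.Agent.Results.MP_92892c_nt.TwoPartTwistsX21Neg.criterion h'
  have e : E21 (sf n) = Pool.Agent.Results.MP_92892c_nt.TwoPartTwistsX21Neg.E n :=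
    if_congr (sf_four h) rfl rfl
  rw [e]
  exact hS.trans (Pool.Agent.Results.MP_92892c_nt.TwoPartTwistsX21Neg.go_iff h')

lemma order_iff {G : Type} [Group G] : (∀ c : G, orderOf c ≠ 4) ↔ ∀ c : G, c ^ 4 = 1 → c ^ 2 = 1 :=
  Pool.Agent.Results.MP_92892c_nt.TwoPartTwistsX24.order_iff

theorem class_iff {n : ℕ} (h : Family n) : NoOrderFour n ↔ Go n := by
  obtain ⟨h, h15 | h21 | h24⟩ := h
  · rw [← Pool.Agent.Results.MP_9c97e9_nt.TwoPartTwistsX15Neg.go_iff (fam15 h h15)]
    constructor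
    · intro h1 K _ _ h6 h7
      exact order_iff.1 (h1 K h6 h7)
    · intro h1 K _ _ h6 h7
      exact order_iff.2 (h1 K h6 h7)
  · rw [← Pool.Agent.Results.MP_92892c_nt.TwoPartTwistsX21Neg.go_iff (fam21 h h21)]
    constructor
    · intro h1 K _ _ h6 h7
      exact order_iff.1 (h1 K h6 h7)
    · intro h1 K _ _ h6 h7
      exact order_iff.2 (h1 K h6 h7)
  · have hF := fam24 h h24
    rw [Pool.Agent.Results.MP_92892c_nt.TwoPartTwistsX24.go_iff hF,
      ← Pool.Agent.Results.MP_92892c_nt.TwoPartTwistsX24.class_iff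
        (Pool.Agent.Results.MP_92892c_nt.TwoPartTwistsX24.good_sf hF)]
    have e : ∀ (K : Type) [Field K], ((sf n : ℤ) : K) =
        -(Pool.Agent.Results.MP_92892c_nt.TwoPartTwistsX24.sf n : K) := by
      intro K _
      rw [m_sf n]
      push_cast
      rfl
    unfold NoOrderFour Pool.Agent.Results.MP_92892c_nt.TwoPartTwistsX24.NoOrderFour
    constructor
    · intro h1 K _ _ h6 h7
      exact h1 K h6 (by rwa [e])
    · intro h1 K _ _ h6 h7
      exact h1 K h6 (by rwa [e] at h7)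

theorem sqf_sf {n : ℕ} (h : FundNeg n) : Squarefree (sf n) := by
  unfold sf
  rcases h with ⟨h1, h2⟩ | ⟨k, rfl, h1, h2⟩
  · rw [if_pos (by omega), ← Int.squarefree_natAbs, Int.natAbs_neg, Int.natAbs_natCast]
    exact h1
  · have e : 4 * k / 4 = k := by omega
    rw [if_neg (by omega), e, ← Int.squarefree_natAbs, Int.natAbs_neg, Int.natAbs_natCast]
    exact h1

/-- the factors of the products of twists by `-n` -/
theorem twist_factor {n d : ℕ} {A : Fin d → WeierstrassCurve ℤ} (h : FundNeg n) (hA : IsTwist n A)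
    (i : Fin d) : IsFactor (A i) ∧ (RZ (A i) ↔ Go n) := by
  rcases hA.2 i with ⟨h1, e⟩ | ⟨h1, e⟩ | ⟨h1, e⟩
  · rw [e]
    exact ⟨Or.inl ⟨sf n, sqf_sf h, Or.inl rfl⟩, rz15 h h1⟩
  · rw [e]
    exact ⟨Or.inl ⟨sf n, sqf_sf h, Or.inr (Or.inr rfl)⟩, rz21 h h1⟩
  · rw [e]
    exact ⟨Or.inr ⟨n, h, h1, rfl⟩, (data24' h h1).2⟩

theorem formula {d : ℕ} {A : Fin d → WeierstrassCurve ℤ} (hA : ∀ i, IsFactor (A i)) : Formula A :=
  formula_of fun i => data_factor (hA i)

theorem rank_twist {n d : ℕ} {A : Fin d → WeierstrassCurve ℤ} (h : Family n) (hA : IsTwist n A) :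
    RankZeroShaTwo A ↔ NoOrderFour n := by
  rw [class_iff h, rank_iff_all]
  constructor
  · intro h1
    exact (twist_factor h.1 hA ⟨0, hA.1⟩).2.1 (h1 _)
  · intro h1 i
    exact (twist_factor h.1 hA i).2.2 h1

theorem good_iff {n : ℕ} (h : Family n) :
    (∀ (d : ℕ) (A : Fin d → WeierstrassCurve ℤ), IsTwist n A → TwoPart A) ↔ Go n := by
  rw [← class_iff h]
  constructor
  · intro h1
    have key : ∀ A : Fin 1 → WeierstrassCurve ℤ, IsTwist n A → NoOrderFour n := fun A h2 =>
      (rank_twist h h2).1 ((formula fun i => (twist_factor h.1 h2 i).1).2.2.2 (h1 1 _ h2))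
    rcases h.2 with h15 | h21 | h24
    · exact key (fun _ => E15 (sf n)) ⟨one_pos, fun _ => Or.inl ⟨h15, rfl⟩⟩
    · exact key (fun _ => E21 (sf n)) ⟨one_pos, fun _ => Or.inr (Or.inl ⟨h21, rfl⟩)⟩
    · exact key (fun _ => E24 (sf n)) ⟨one_pos, fun _ => Or.inr (Or.inr ⟨h24, rfl⟩)⟩
  · intro h1 d A hA
    exact (formula fun i => (twist_factor h.1 hA i).1).2.2.1 ((rank_twist h hA).2 h1)

/-- the residues of the family modulo `1680` -/
def RR : Finset ℕ := (range 1680).filter fun r =>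
  (r % 3 ≠ 1 ∧ (r % 5 = 0 ∨ r % 5 = 2 ∨ r % 5 = 3)) ∨
  (r % 3 ≠ 2 ∧ (r % 7 = 0 ∨ r % 7 = 3 ∨ r % 7 = 5 ∨ r % 7 = 6)) ∨
  ((r % 8 = 3 ∨ r % 8 = 0) ∧ r % 3 ≠ 1)

theorem mem_RR (n : ℕ) : n % 1680 ∈ RR ↔ (Is15 n ∨ Is21 n ∨ Is24 n) := by
  unfold RR Is15 Is21 Is24
  rw [mem_filter, mem_range]
  have h1 : n % 1680 % 3 = n % 3 := Nat.mod_mod_of_dvd _ ⟨560, rfl⟩
  have h2 : n % 1680 % 5 = n % 5 := Nat.mod_mod_of_dvd _ ⟨336, rfl⟩
  have h3 : n % 1680 % 7 = n % 7 := Nat.mod_mod_of_dvd _ ⟨240, rfl⟩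
  have h4 : n % 1680 % 8 = n % 8 := Nat.mod_mod_of_dvd _ ⟨210, rfl⟩
  rw [h1, h2, h3, h4, Nat.dvd_iff_mod_eq_zero]
  exact ⟨fun h => h.2, fun h => ⟨Nat.mod_lt _ (by norm_num), h⟩⟩

theorem density_family :
    Tendsto (fun X : ℕ => (good X : ℝ) / (total X : ℝ)) atTop (𝓝 eta) := by
  have h := Pool.Agent.N916.AM.density_mod (m := 1680) (by norm_num) (R := RR) (n₀ := 3)
    Nat.prime_three.squarefree (by norm_num) (by
      rw [mem_RR]
      exact Or.inl (by norm_num [Is15]))
  refine h.congr fun X => congrArg₂ (fun a b : ℕ => (a : ℝ) / (b : ℝ)) ?_ ?_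
  · refine congrArg Finset.card (Finset.ext fun n => ?_)
    refine (Finset.mem_filter).trans (Iff.trans ?_ (Finset.mem_filter).symm)
    refine and_congr_right fun _ => ?_
    rw [mem_RR]
    constructor
    · rintro ⟨h1, h2, h3⟩
      have hF : Family n := ⟨h1, h2⟩
      exact ⟨hF, (good_iff hF).2 h3⟩
    · rintro ⟨h1, h2⟩
      exact ⟨h1.1, h1.2, (good_iff h1).1 h2⟩
  · refine congrArg Finset.card (Finset.ext fun n => ?_)
    refine (Finset.mem_filter).trans (Iff.trans ?_ (Finset.mem_filter).symm)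
    refine and_congr_right fun _ => ?_
    rw [mem_RR]
    exact Iff.rfl

end proof

/-- **Main theorem.** The formula, the criterion and the 2-part for all products of factors, of all
dimensions; the natural density, for all choices of curves, of the tuples of twists for which the 2-part is
proved; the natural density, for every product of the three curves, of its twists for which the 2-part is
proved; the criterion by the class group for products of twists by the same discriminant, and the natural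
density of the discriminants for which the 2-part is proved for all these products at once. -/
theorem result :
    (∀ (d : ℕ) (A : Fin d → WeierstrassCurve ℤ), (∀ i, IsFactor (A i)) → Formula A) ∧
    (∀ (d : ℕ) (l : Fin d → Fin 3),
      Tendsto (fun X : ℕ => (goodT l X : ℝ) / (totalT d X : ℝ)) atTop (𝓝 (∏ i, dens (l i)))) ∧
    (∀ (d : ℕ) (l : Fin d → Fin 3), 0 < d →
      Tendsto (fun X : ℕ => (goodS l X : ℝ) / (totalS X : ℝ)) atTop (𝓝 (jdens (univ.image l)))) ∧
    (∀ n : ℕ, Family n → ∀ (d : ℕ) (A : Fin d → WeierstrassCurve ℤ), IsTwist n A →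
      (∀ i, IsFactor (A i)) ∧ (RankZeroShaTwo A ↔ NoOrderFour n)) ∧
    Tendsto (fun X : ℕ => (good X : ℝ) / (total X : ℝ)) atTop (𝓝 eta) ∧
    0.2887 < eta ∧ eta < 0.2889 :=
  ⟨fun _ _ hA => formula hA, fun _ l => density_tuples l, fun _ l hd => density_same l hd,
    fun _ h _ _ hA => ⟨fun i => (twist_factor h.1 hA i).1, rank_twist h hA⟩, density_family,
    Pool.Agent.N916.GB.eta_bounds⟩

end Pool.Agent.Results.MP_dfae13_nt.TwoPartProducts
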