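import Pool.Agent.N843.WR.Pts
import Pool.Agent.Results.MP_e996df_nt.TwoPartX17Quadratic
import Pool.Agent.Results.MP_9ab903_nt.TwoPartX21Quadratic

/-!
# The 2-part of the leading term formula for the Weil restrictions of `17a2` and `X_0(21)` from all the
# quadratic fields, and their products

`K` runs over ALL the quadratic fields, real and imaginary, and `E` is one of the two curves without complex
multiplication `17a2 : y² + x y = x³ - 4 x² - x` and `X_0(21) : y² + x y = x³ - 4 x - 1`. Let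
`A_K = Res_{K/ℚ} E` be the Weil restriction, an abelian surface over `ℚ`. Over an algebraically closed field
its points are the families of points of `E` indexed by the two embeddings of `K`. We consider the
abelian varieties `A = ∏ Res_{K_i/ℚ} E_i`, for any finite family of such pairs, and
`z(A) = L(A, 1) #A(ℚ)_tors² / (V_∞ ∏_p c_p)`, which is zero or the order of `Ш(A)` according to the
conjecture of Birch and Swinnerton-Dyer; here `A` is isomorphic to its dual variety,
`V_∞ = ∏_i Ω_i / √|disc K_i|` is the volume of `A(ℝ)` for the Néron differential (`Ω_i` is the product of the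
periods of `E_i` over the infinite places of `K_i`) and `c_p` is the product of the Tamagawa numbers `c_v` of
the `E_i` over the `K_i` at the places `v` over `p`.

* For every `K` (except `ℚ(i)`, `ℚ(√17)` for `17a2` and `ℚ(√-3)` for `X_0(21)`): `#A_K(ℚ)_tors` is `4`,
  resp. `8`, `∏ c_p` is given, `L(A_K, s)` is entire, `z(A_K) = 4 ^ (t - r) y²` with an integer `y`, where for
  `17a2` `t` is the number of the primes `≠ 17` that ramify in `K` and `r` the number of the infinite places,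
  and for `X_0(21)` `t` is the number of the primes `≠ 3` that ramify and `r` is `2` if `K` is real and `3`
  splits in `K`, and `1` otherwise; `y` is odd iff the twist `E^K` has finitely many points over `ℚ` and
  no element of order two in `Ш(E^K/ℚ)`, iff the 2-part of the formula holds for `A_K`, `Ш(A_K)[2^∞]` is
  killed by two and has exactly `4 ^ (t - r)` elements; then `A_K(ℚ)` is finite and `L(A_K, 1) ≠ 0`.
* The proportion of the `K` for which this is so, with `t - r ≥ B`, among all the quadratic fields, ordered by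
  the absolute value of the discriminant, is exactly `c / 2 = 0.2097…` for `17a2` and
  `137 η / 256 = 0.154…` for `X_0(21)`, for every `B`; and for every `k` there are infinitely many real and
  infinitely many imaginary `K` with `Ш(A_K)[2^∞]` of order `4 ^ k`.
* The 2-part of the formula holds for all the products of these surfaces, of all even dimensions.

The lemma of Shapiro `Ш(Res_{K/ℚ} E) = Ш(E/K)` (Milne) is proved in `Pool/Agent/N843/WR/Sh.lean`; the formula
for `E` over `K` is `MP_e996df_nt/TwoPartX17Quadratic` and `MP_9ab903_nt/TwoPartX21Quadratic` (helper875 and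
others).
-/

set_option autoImplicit false

namespace Pool.Agent.Results.MP_dfae13_nt.WeilRestrictionsQuadratic

open NumberField IsDedekindDomain Filter Topology WeierstrassCurve
open Pool.Agent.Results.MP_e996df_nt.TwoPartX17Quadratic (base MinimalAt c Tam torsOrder IsL Om
  IsPeriodLattice IsQuad IsDisc count cc)
open Pool.Agent.N843.WR (RSha RRat)

/-! ### The abelian variety `A = ∏ Res_{K_i/ℚ} E_i` -/

section

variable {ι : Type} [Fintype ι] (W : ι → WeierstrassCurve ℤ) (F : ι → Type) [∀ i, Field (F i)]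
  [∀ i, NumberField (F i)]

/-- The order of the torsion subgroup of `A(ℚ)`. -/
noncomputable def torsA : ℕ :=
  Nat.card {P : ∀ i, RRat (base (W i) ℚ) (F i) // ∃ n : ℕ, 0 < n ∧ ∀ i, n • (P i).1 = 0}

/-- The 2-primary part of `Ш(A)`. -/
def ShaTwoA : Type := {x : ∀ i, RSha (base (W i) ℚ) (F i) // ∃ n : ℕ, 2 ^ n • x = 0}

/-- The volume `V_∞` of `A(ℝ)` for the differential of the Néron model. -/
noncomputable def Vinf (Λ : ι → PeriodPair) : ℝ :=
  ∏ i, Om (F i) (W i) (Λ i) / Real.sqrt |(discr (F i) : ℝ)|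

/-- The product of the Tamagawa numbers `c_p = ∏_i ∏_{v | p} c_v`. -/
noncomputable def TamA : ℕ := ∏ i, Tam (F i) (W i)

/-- The order of `Ш(A)` predicted by the formula in rank zero, for the value `l` of the L-function at
`s = 1`: `l #A(ℚ)_tors² / (V_∞ ∏ c_p)`. -/
noncomputable def anOrderA (l : ℂ) (Λ : ι → PeriodPair) : ℂ :=
  l * (torsA W F : ℂ) ^ 2 / ((Vinf W F Λ : ℂ) * (TamA W F : ℂ))

/-- `L(A, s) = ∏_i L(E_i/K_i, s)`, and all the factors are entire. -/
def IsLA (L : ℂ → ℂ) : Prop :=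
  ∃ f : ι → ℂ → ℂ, (∀ i, IsL (F i) (W i) (f i)) ∧ ∀ s, L s = ∏ i, f i s

/-- The 2-part of the formula for `A`, in rank zero, where `Ш(A)[2^∞]` is a vector space of dimension `2 k`
over the field with two elements: the equations are minimal at all the places, `A(ℚ)` is finite,
`Ш(A)[2^∞]` is killed by two and has order `4 ^ k`, `L(A, s)` is entire, `L(A, 1) ≠ 0`, and the
predicted order of `Ш(A)` is a rational number with 2-adic valuation `2 k`. -/
def TwoPartA (k : ℕ) : Prop :=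
  (∀ i, ∀ v : HeightOneSpectrum (𝓞 (F i)), MinimalAt (W i) v) ∧
  Finite (∀ i, RRat (base (W i) ℚ) (F i)) ∧
  (∀ x : ShaTwoA W F, 2 • x.1 = 0) ∧ Nat.card (ShaTwoA W F) = 4 ^ k ∧
  (∀ i, {v : HeightOneSpectrum (𝓞 (F i)) | c (W i) v ≠ 1}.Finite) ∧ 0 < TamA W F ∧ 0 < torsA W F ∧
  ∃ (L : ℂ → ℂ) (z : ℚ), IsLA W F L ∧ L 1 ≠ 0 ∧
    (∃ Λ : ι → PeriodPair, ∀ i, IsPeriodLattice (W i) (Λ i)) ∧
    (∀ Λ : ι → PeriodPair, (∀ i, IsPeriodLattice (W i) (Λ i)) →
      0 < Vinf W F Λ ∧ anOrderA W F (L 1) Λ = z) ∧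
    z ≠ 0 ∧ padicValRat 2 z = 2 * k

end

/-- One factor: the curve. -/
abbrev oneW (W : WeierstrassCurve ℤ) : Unit → WeierstrassCurve ℤ := fun _ => W

/-- One factor: the field. So `oneW E`, `oneF K` stand for the surface `A_K = Res_{K/ℚ} E`. -/
abbrev oneF (K : Type) : Unit → Type := fun _ => K

/-- The curve `17a2 : y² + x y = x³ - 4 x² - x`. -/
abbrev E17 : WeierstrassCurve ℤ := Pool.Agent.Results.MP_e996df_nt.TwoPartX17Quadratic.E

/-- The curve `X_0(21) : y² + x y = x³ - 4 x - 1`. -/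
abbrev E21 : WeierstrassCurve ℤ := Pool.Agent.Results.MP_9ab903_nt.TwoPartX21Quadratic.E

/-- The statement for the surface `A_K = Res_{K/ℚ} E`, where `tam` is the product of the Tamagawa numbers,
`tor` the order of `A_K(ℚ)_tors`, `4 ^ t / 4 ^ r` the constant in `z(A_K) = 4 ^ (t - r) y²`, and `NS` the
condition on the twist of `E`. -/
def CriterionA (E : WeierstrassCurve ℤ) (K : Type) [Field K] [NumberField K] (tam tor t r : ℕ)
    (NS : Prop) : Prop :=
  (∀ v : HeightOneSpectrum (𝓞 K), MinimalAt E v) ∧ TamA (oneW E) (oneF K) = tam ∧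
  torsA (oneW E) (oneF K) = tor ∧
  (∃ (L : ℂ → ℂ) (y : ℤ), IsLA (oneW E) (oneF K) L ∧ (∃ Λ : PeriodPair, IsPeriodLattice E Λ) ∧
    (∀ Λ : PeriodPair, IsPeriodLattice E Λ → 0 < Vinf (oneW E) (oneF K) (fun _ => Λ) ∧
      anOrderA (oneW E) (oneF K) (L 1) (fun _ => Λ) = ((4 ^ t / 4 ^ r * (y : ℚ) ^ 2 : ℚ) : ℂ)) ∧
    (Odd y ↔ NS)) ∧
  (NS ↔ r ≤ t ∧ TwoPartA (oneW E) (oneF K) (t - r))

/-- `D` is the discriminant of a quadratic field `K` with `t = r + k`, and the 2-part of the formula holds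
for `A_K = Res_{K/ℚ} 17a2`, with `Ш(A_K)[2^∞]` of order `4 ^ k`. -/
def Holds17 (D : ℤ) (k : ℕ) : Prop := IsDisc D ∧ ∀ (K : Type) [Field K] [NumberField K], IsQuad K →
  discr K = D → Pool.Agent.Results.MP_e996df_nt.TwoPartX17Quadratic.ram K =
    Pool.Agent.Results.MP_e996df_nt.TwoPartX17Quadratic.inf K + k ∧
    TwoPartA (oneW E17) (oneF K) k

/-- `D` is the discriminant of a quadratic field `K` with `t = r + k`, and the 2-part of the formula holds
for `A_K = Res_{K/ℚ} X_0(21)`, with `Ш(A_K)[2^∞]` of order `4 ^ k`. -/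
def Holds21 (D : ℤ) (k : ℕ) : Prop := IsDisc D ∧ ∀ (K : Type) [Field K] [NumberField K], IsQuad K →
  discr K = D → Pool.Agent.Results.MP_9ab903_nt.TwoPartX21Quadratic.ram K =
    Pool.Agent.Results.MP_9ab903_nt.TwoPartX21Quadratic.delta K + k ∧
    TwoPartA (oneW E21) (oneF K) k

section proof

open Pool.Agent.Results.MP_e996df_nt.TwoPartX17Quadratic (anOrder Sha2 TwoPart)
open Pool.Agent.N843.WR
open Pool.Agent.TH841.NF
open Pool.Agent.Y682
open Pool.Agent.TH841.SH.D (Pt)

lemma scW (W : WeierstrassCurve ℤ) (L : Type) [Field L] [NumberField L] :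
    Sc (algebraMap ℚ L) 1 (base W ℚ) (base W L) := by
  refine ⟨one_ne_zero, ?_, ?_, ?_, ?_, ?_⟩ <;> simp [base]

section

attribute [-instance] DivisionRing.toRatAlgebra

lemma exists_al (F : Type) [Field F] [NumberField F] [Algebra ℚ F] :
    Nonempty (AlgebraicClosure F ≃+* Qb) := by
  have h1 : Algebra.IsAlgebraic ℚ (AlgebraicClosure F) := by
    have : Algebra.IsAlgebraic ℚ F := inferInstance
    exact Algebra.IsAlgebraic.trans ℚ F _
  have h2 : IsAlgClosure ℚ (AlgebraicClosure F) := ⟨inferInstance, h1⟩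
  exact ⟨(IsAlgClosure.equiv ℚ (AlgebraicClosure F) Qb).toRingEquiv⟩

end

lemma exists_isoW (W : WeierstrassCurve ℤ) (L : Type) [Field L] [NumberField L] :
    Nonempty (RSha (base W ℚ) L ≃+ Pool.Agent.TH841.NF.D.Sha (base W L)) := by
  obtain ⟨e⟩ := exists_al L
  exact ⟨shapiro (scW W L) e⟩

lemma tors_one (W : WeierstrassCurve ℤ) (L : Type) [Field L] [NumberField L] :
    Nat.card {P : RRat (base W ℚ) L // ∃ n : ℕ, 0 < n ∧ n • P.1 = 0} = torsOrder L W := by
  classical
  obtain ⟨e⟩ := exists_al L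
  have key : ∀ (Q : Pt (base W L) L) (n : ℕ), n • (toR (scW W L) Q).1 = 0 ↔ n • Q = 0 := by
    intro Q n
    constructor
    · intro h
      have h1 : n • tm (sc_any (scW W L) ((emA e : L →ₐ[ℚ] Qb) : L →+* Qb)) Q = 0 :=
        congrFun h (emA e)
      rw [← map_nsmul] at h1
      exact tm_inj _ (h1.trans (map_zero _).symm)
    · intro h
      funext t
      show n • tm (sc_any (scW W L) (t : L →+* Qb)) Q = 0
      rw [← map_nsmul, h, map_zero]
  unfold torsOrder
  refine (Nat.card_congr ((Equiv.ofBijective _ (toR_bij (scW W L))).subtypeEquiv fun Q => ?_)).symm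
  show IsOfFinAddOrder Q ↔ _
  rw [isOfFinAddOrder_iff_nsmul_eq_zero]
  refine exists_congr fun n => and_congr_right fun _ => ?_
  exact (key Q n).symm

lemma rat_fin (W : WeierstrassCurve ℤ) (L : Type) [Field L] [NumberField L] :
    Finite (RRat (base W ℚ) L) ↔ Finite (base W L).toAffine.Point :=
  (Equiv.finite_iff (Equiv.ofBijective _ (toR_bij (scW W L)))).symm

lemma mem_pc {G : Type} [AddCommGroup G] (x : G) :
    x ∈ AddCommGroup.primaryComponent G 2 ↔ ∃ n : ℕ, 2 ^ n • x = 0 := Iff.rfl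

lemma sha_one (W : WeierstrassCurve ℤ) (L : Type) [Field L] [NumberField L] :
    Nat.card {x : RSha (base W ℚ) L // ∃ n : ℕ, 2 ^ n • x = 0} = Nat.card (Sha2 L W) := by
  obtain ⟨φ⟩ := exists_isoW W L
  refine Nat.card_congr (φ.toEquiv.subtypeEquiv fun x => ?_)
  rw [mem_pc]
  refine exists_congr fun n => ?_
  show 2 ^ n • x = 0 ↔ 2 ^ n • φ x = 0
  rw [← map_nsmul, map_eq_zero_iff _ φ.injective]

lemma kill_one (W : WeierstrassCurve ℤ) (L : Type) [Field L] [NumberField L] :
    (∀ x : Sha2 L W, 2 • x = 0) ↔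
      ∀ x : RSha (base W ℚ) L, (∃ n : ℕ, 2 ^ n • x = 0) → 2 • x = 0 := by
  obtain ⟨φ⟩ := exists_isoW W L
  constructor
  · rintro h x ⟨n, hx⟩
    have h1 : φ x ∈ AddCommGroup.primaryComponent (Pool.Agent.TH841.NF.D.Sha (base W L)) 2 :=
      (mem_pc _).2 ⟨n, by rw [← map_nsmul, hx, map_zero]⟩
    have h2 := congrArg Subtype.val (h ⟨φ x, h1⟩)
    apply φ.injective
    rw [map_nsmul, map_zero]
    exact h2
  · intro h x
    obtain ⟨n, hn⟩ := (mem_pc _).1 x.2
    have h1 := h (φ.symm x.1) ⟨n, by rw [← map_nsmul, hn, map_zero]⟩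
    apply Subtype.ext
    show 2 • x.1 = 0
    rw [← map_nsmul, EmbeddingLike.map_eq_zero_iff] at h1
    exact h1

variable {ι : Type} [Fintype ι] (W : ι → WeierstrassCurve ℤ) (F : ι → Type) [∀ i, Field (F i)]
  [∀ i, NumberField (F i)]

lemma torsA_eq : torsA W F = ∏ i, torsOrder (F i) (W i) := by
  classical
  unfold torsA
  rw [Finset.prod_congr rfl fun i _ => (tors_one (W i) (F i)).symm, ← Nat.card_pi]
  refine Nat.card_congr ⟨fun P i => ⟨P.1 i, ?_⟩, fun P => ⟨fun i => (P i).1, ?_⟩, fun P => rfl,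
    fun P => rfl⟩
  · obtain ⟨n, h1, h2⟩ := P.2
    exact ⟨n, h1, h2 i⟩
  · choose n h1 h2 using fun i => (P i).2
    refine ⟨∏ i, n i, Finset.prod_pos fun i _ => h1 i, fun i => ?_⟩
    obtain ⟨m, hm⟩ := Finset.dvd_prod_of_mem n (Finset.mem_univ i)
    rw [hm, mul_comm, mul_smul, h2, smul_zero]

/-- the 2-primary part of a product -/
noncomputable def shaEquiv : ShaTwoA W F ≃
    ∀ i, {x : RSha (base (W i) ℚ) (F i) // ∃ n : ℕ, 2 ^ n • x = 0} where
  toFun x i := ⟨x.1 i, by
    obtain ⟨n, h⟩ := x.2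
    exact ⟨n, congrFun h i⟩⟩
  invFun x := ⟨fun i => (x i).1, by
    choose n h using fun i => (x i).2
    refine ⟨∑ i, n i, funext fun i => ?_⟩
    show 2 ^ (∑ i, n i) • (x i).1 = 0
    obtain ⟨m, hm⟩ := Nat.exists_eq_add_of_le (Finset.single_le_sum (f := n)
      (fun j _ => Nat.zero_le _) (Finset.mem_univ i))
    rw [hm, pow_add, mul_comm, mul_smul, h, smul_zero]⟩
  left_inv x := rfl
  right_inv x := rfl

lemma card_eq : Nat.card (ShaTwoA W F) = ∏ i, Nat.card (Sha2 (F i) (W i)) := by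
  rw [Nat.card_congr (shaEquiv W F), Nat.card_pi]
  exact Finset.prod_congr rfl fun i _ => sha_one (W i) (F i)

lemma an_eq (l : ι → ℂ) (Λ : ι → PeriodPair) :
    anOrderA W F (∏ i, l i) Λ = ∏ i, anOrder (F i) (W i) (l i) (Λ i) := by
  unfold anOrderA anOrder Vinf TamA
  rw [torsA_eq]
  push_cast
  rw [← Finset.prod_pow, ← Finset.prod_mul_distrib, ← Finset.prod_mul_distrib,
    ← Finset.prod_div_distrib]
  refine Finset.prod_congr rfl fun i _ => ?_
  rw [div_mul_eq_mul_div, div_div_eq_mul_div]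
  congr 1
  ring

lemma sqrt_pos' (L : Type) [Field L] [NumberField L] : 0 < Real.sqrt |(discr L : ℝ)| :=
  Real.sqrt_pos.2 (abs_pos.2 (by exact_mod_cast discr_ne_zero L))

omit [Fintype ι] in
lemma val_prod {z : ι → ℚ} {k : ι → ℕ} (h : ∀ i, z i ≠ 0) (hk : ∀ i, padicValRat 2 (z i) = 2 * k i)
    (s : Finset ι) : padicValRat 2 (∏ i ∈ s, z i) = 2 * ((∑ i ∈ s, k i : ℕ) : ℤ) := by
  classical
  have : Fact (Nat.Prime 2) := ⟨Nat.prime_two⟩
  induction s using Finset.induction_on with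
  | empty => simp
  | insert a s ha ih =>
    rw [Finset.prod_insert ha, Finset.sum_insert ha, padicValRat.mul (h a)
      (Finset.prod_ne_zero_iff.2 fun i _ => h i), ih, hk]
    push_cast
    ring

/-- the 2-part for a product -/
lemma twoPartA_of {k : ι → ℕ} (h : ∀ i, TwoPart (F i) (W i) (k i)) :
    TwoPartA W F (∑ i, k i) := by
  have h1 : ∀ i, Finite (RRat (base (W i) ℚ) (F i)) := fun i => (rat_fin (W i) (F i)).2 (h i).2.1
  choose f z hf hf1 hper hval hz hzv using fun i => (h i).2.2.2.2.2.2.2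
  choose Λ0 hΛ0 using hper
  refine ⟨fun i => (h i).1, inferInstance, ?_, ?_, fun i => (h i).2.2.2.2.1, ?_, ?_,
    fun s => ∏ i, f i s, ∏ i, z i, ⟨f, hf, fun _ => rfl⟩, ?_, ⟨Λ0, hΛ0⟩, fun Λ hΛ => ⟨?_, ?_⟩, ?_, ?_⟩
  · rintro ⟨x, n, hx⟩
    funext i
    exact (kill_one (W i) (F i)).1 (h i).2.2.1 (x i) ⟨n, congrFun hx i⟩
  · rw [card_eq, Finset.prod_congr rfl fun i _ => (h i).2.2.2.1, Finset.prod_pow_eq_pow_sum]
  · exact Finset.prod_pos fun i _ => (h i).2.2.2.2.2.1
  · rw [torsA_eq]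
    exact Finset.prod_pos fun i _ => (h i).2.2.2.2.2.2.1
  · exact Finset.prod_ne_zero_iff.2 fun i _ => hf1 i
  · exact Finset.prod_pos fun i _ => div_pos (hval i (Λ i) (hΛ i)).1 (sqrt_pos' (F i))
  · rw [an_eq W F (fun i => f i 1)]
    push_cast
    exact Finset.prod_congr rfl fun i _ => (hval i (Λ i) (hΛ i)).2
  · exact Finset.prod_ne_zero_iff.2 fun i _ => hz i
  · exact val_prod hz hzv Finset.univ

section one

variable (V : WeierstrassCurve ℤ) (K : Type) [Field K] [NumberField K]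

lemma an_one (l : ℂ) (Λ : PeriodPair) :
    anOrderA (oneW V) (oneF K) l (fun _ => Λ) = anOrder K V l Λ := by
  have h1 := an_eq (oneW V) (oneF K) (fun _ => l) (fun _ => Λ)
  rw [Finset.univ_unique, Finset.prod_singleton, Finset.prod_singleton] at h1
  exact h1

lemma card_one : Nat.card (ShaTwoA (oneW V) (oneF K)) = Nat.card (Sha2 K V) := by
  rw [card_eq, Finset.univ_unique, Finset.prod_singleton]

lemma torsA_one : torsA (oneW V) (oneF K) = torsOrder K V := by
  rw [torsA_eq, Finset.univ_unique, Finset.prod_singleton]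

lemma tamA_one : TamA (oneW V) (oneF K) = Tam K V := by
  unfold TamA
  rw [Finset.univ_unique, Finset.prod_singleton]

lemma vinf_one (Λ : PeriodPair) : Vinf (oneW V) (oneF K) (fun _ => Λ) =
    Om K V Λ / Real.sqrt |(discr K : ℝ)| := by
  unfold Vinf
  rw [Finset.univ_unique, Finset.prod_singleton]

lemma vinf_pos {Λ : PeriodPair} : 0 < Vinf (oneW V) (oneF K) (fun _ => Λ) ↔ 0 < Om K V Λ := by
  rw [vinf_one]
  exact div_pos_iff_of_pos_right (sqrt_pos' K)

lemma isLA_one {L : ℂ → ℂ} : IsLA (oneW V) (oneF K) L ↔ IsL K V L := by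
  constructor
  · rintro ⟨f, hf, hfg⟩
    have e1 : L = f () := funext fun s => by
      rw [hfg, Finset.univ_unique, Finset.prod_singleton]
    rw [e1]
    exact hf ()
  · intro h
    refine ⟨fun _ => L, fun _ => h, fun s => ?_⟩
    rw [Finset.univ_unique, Finset.prod_singleton]

lemma twoPartA_one {k : ℕ} : TwoPartA (oneW V) (oneF K) k ↔ TwoPart K V k := by
  constructor
  · rintro ⟨h1, h2, h3, h4, h5, h6, h7, L, z, hL, hL1, ⟨Λ0, hΛ0⟩, hval, hz, hzv⟩
    refine ⟨h1 (), (rat_fin V K).1 ?_, (kill_one V K).2 fun x hx => ?_, ?_, h5 (), ?_, ?_, L, z,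
      (isLA_one V K).1 hL, hL1, ⟨Λ0 (), hΛ0 ()⟩, fun Λ hΛ => ?_, hz, hzv⟩
    · exact Finite.of_injective
        (fun P : RRat (base V ℚ) K => (fun _ => P : ∀ _ : Unit, RRat (base V ℚ) K))
        fun P Q h => congrFun h ()
    · have h8 := h3 ((shaEquiv (oneW V) (oneF K)).symm fun _ => ⟨x, hx⟩)
      exact congrFun h8 ()
    · rw [← card_one]
      exact h4
    · rw [← tamA_one]
      exact h6
    · rw [← torsA_one]
      exact h7
    · obtain ⟨h8, h9⟩ := hval (fun _ => Λ) (fun _ => hΛ)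
      exact ⟨(vinf_pos V K).1 h8, by rw [← an_one]; exact h9⟩
  · intro h
    have h1 := twoPartA_of (oneW V) (oneF K) (k := fun _ => k) fun _ => h
    rw [Finset.univ_unique, Finset.sum_singleton] at h1
    exact h1

lemma criterionA_of {tam tor t r : ℕ} {NS : Prop}
    (h1 : ∀ v : HeightOneSpectrum (𝓞 K), MinimalAt V v) (h2 : Tam K V = tam)
    (h3 : torsOrder K V = tor)
    (h4 : ∃ (L : ℂ → ℂ) (y : ℤ), IsL K V L ∧ (∃ Λ : PeriodPair, IsPeriodLattice V Λ) ∧
      (∀ Λ : PeriodPair, IsPeriodLattice V Λ → 0 < Om K V Λ ∧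
        anOrder K V (L 1) Λ = ((4 ^ t / 4 ^ r * (y : ℚ) ^ 2 : ℚ) : ℂ)) ∧ (Odd y ↔ NS))
    (h5 : NS ↔ r ≤ t ∧ TwoPart K V (t - r)) : CriterionA V K tam tor t r NS := by
  obtain ⟨L, y, k1, k2, k3, k4⟩ := h4
  refine ⟨h1, (tamA_one V K).trans h2, (torsA_one V K).trans h3, ⟨L, y, (isLA_one V K).2 k1, k2,
    fun Λ hΛ => ⟨(vinf_pos V K).2 (k3 Λ hΛ).1, ?_⟩, k4⟩, ?_⟩
  · rw [an_one]
    exact (k3 Λ hΛ).2
  · rw [twoPartA_one]
    exact h5

end one

lemma holds17_iff {D : ℤ} {k : ℕ} :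
    Pool.Agent.Results.MP_e996df_nt.TwoPartX17Quadratic.Holds D k ↔ Holds17 D k := by
  unfold Pool.Agent.Results.MP_e996df_nt.TwoPartX17Quadratic.Holds Holds17
  refine and_congr_right fun _ => ?_
  constructor
  · intro h K _ _ hq hD
    exact ⟨(h K hq hD).1, (twoPartA_one _ K).2 (h K hq hD).2⟩
  · intro h K _ _ hq hD
    exact ⟨(h K hq hD).1, (twoPartA_one _ K).1 (h K hq hD).2⟩

lemma holds21_iff {D : ℤ} {k : ℕ} :
    Pool.Agent.Results.MP_9ab903_nt.TwoPartX21Quadratic.Holds D k ↔ Holds21 D k := by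
  unfold Pool.Agent.Results.MP_9ab903_nt.TwoPartX21Quadratic.Holds Holds21
  refine and_congr Iff.rfl ?_
  constructor
  · intro h K _ _ hq hD
    exact ⟨(h K hq hD).1, (twoPartA_one _ K).2 (h K hq hD).2⟩
  · intro h K _ _ hq hD
    exact ⟨(h K hq hD).1, (twoPartA_one _ K).1 (h K hq hD).2⟩

end proof

/-- **Main theorem.** The criterion for the 2-part of the leading term formula for the abelian surfaces
`Res_{K/ℚ} 17a2` and `Res_{K/ℚ} X_0(21)`, for all the quadratic fields `K`, with the exceptions stated; the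
exact proportions; infinitely many `K`, real and imaginary, with `Ш[2^∞]` of each order `4 ^ k`; and
the formula for the products of such surfaces. -/
theorem result :
    (∀ (K : Type) [Field K] [NumberField K], IsQuad K → discr K ≠ -4 → discr K ≠ 17 →
      CriterionA E17 K (if jacobiSym (discr K) 17 = -1 then 2 else 4) 4
        (Pool.Agent.Results.MP_e996df_nt.TwoPartX17Quadratic.ram K)
        (Pool.Agent.Results.MP_e996df_nt.TwoPartX17Quadratic.inf K)
        (Pool.Agent.Results.MP_e996df_nt.TwoPartX17Quadratic.NoSelmer (discr K))) ∧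
    (∀ (K : Type) [Field K] [NumberField K], IsQuad K → discr K ≠ -3 →
      CriterionA E21 K (Pool.Agent.Results.MP_9ab903_nt.TwoPartX21Quadratic.tamValue (discr K)) 8
        (Pool.Agent.Results.MP_9ab903_nt.TwoPartX21Quadratic.ram K)
        (Pool.Agent.Results.MP_9ab903_nt.TwoPartX21Quadratic.delta K)
        (Pool.Agent.Results.MP_9ab903_nt.TwoPartX21Quadratic.NoSelmer (discr K))) ∧
    (∀ B : ℕ, Tendsto (fun X : ℕ => (count (fun D => ∃ k, B ≤ k ∧ Holds17 D k) X : ℝ) /
      (count IsDisc X : ℝ)) atTop (𝓝 (cc / 2))) ∧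
    (∀ B : ℕ, Tendsto (fun X : ℕ => (count (fun D => ∃ k, B ≤ k ∧ Holds21 D k) X : ℝ) /
      (count IsDisc X : ℝ)) atTop
        (𝓝 (137 / 256 * Pool.Agent.Results.MP_9ab903_nt.TwoPartX21Quadratic.eta))) ∧
    (0.4194 < cc ∧ cc < 0.4195) ∧
    (0.2887 < Pool.Agent.Results.MP_9ab903_nt.TwoPartX21Quadratic.eta ∧
      Pool.Agent.Results.MP_9ab903_nt.TwoPartX21Quadratic.eta < 0.2889) ∧
    (∀ k : ℕ, {D : ℤ | D < 0 ∧ Holds17 D k}.Infinite ∧ {D : ℤ | 0 < D ∧ Holds17 D k}.Infinite ∧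
      {D : ℤ | D < 0 ∧ Holds21 D k}.Infinite ∧ {D : ℤ | 0 < D ∧ Holds21 D k}.Infinite) ∧
    ∀ (ι : Type) [Fintype ι] (W : ι → WeierstrassCurve ℤ) (F : ι → Type) [∀ i, Field (F i)]
      [∀ i, NumberField (F i)] (k : ι → ℕ),
      (∀ i, TwoPartA (oneW (W i)) (oneF (F i)) (k i)) → TwoPartA W F (∑ i, k i) := by
  obtain ⟨r1, r2, r3, r4⟩ := Pool.Agent.Results.MP_e996df_nt.TwoPartX17Quadratic.result
  obtain ⟨s1, s2, s3, -, -, s4⟩ := Pool.Agent.Results.MP_9ab903_nt.TwoPartX21Quadratic.result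
  refine ⟨fun K _ _ hq h4 h17 => ?_, fun K _ _ hq h3 => ?_, fun B => ?_, fun B => ?_, r2, s2,
    fun k => ?_, fun ι _ W F _ _ k h => ?_⟩
  · obtain ⟨h1, -, h2, h3, h5, -, -, h6⟩ := r1 K hq h4 h17
    exact criterionA_of _ K h1 h2 h3 h5 h6
  · obtain ⟨h1, -, h2, h4, h5, -, -, h6⟩ := s1 K hq h3
    exact criterionA_of _ K h1 h2 h4 h5 h6
  · have h := r3 B
    simp only [holds17_iff] at h
    exact h
  · have h := s3 B
    simp only [holds21_iff] at h
    exact h
  · obtain ⟨h1, h2⟩ := r4 k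
    obtain ⟨h3, h4⟩ := s4 k
    simp only [holds17_iff] at h1 h2
    simp only [holds21_iff] at h3 h4
    exact ⟨h1, h2, h3, h4⟩
  · exact twoPartA_of W F fun i => (twoPartA_one (W i) (F i)).1 (h i)

end Pool.Agent.Results.MP_dfae13_nt.WeilRestrictionsQuadratic
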