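import Pool.Agent.N843.WR.X49
import Pool.Agent.Results.MP_e996df_nt.RefinedTowersX49

/-!
# The 2-part of the leading term formula for the Weil restrictions of `X_0(49)` and their products

`E` is the curve `y² + x y = x³ - x² - 2 x - 1` over `ℚ`, of conductor `49`, and `K = ℚ(√-7)`, that is, a
number field of degree two with an integer `a` such that `a² = a - 2`. For a squarefree integer `D ≠ 1` of
`K`, congruent to `1` modulo `4` and prime to `√-7 = 2 a - 1`, let `F = K(√D)`, a field of degree four, and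
let `A_D = Res_{F/ℚ} E` be the Weil restriction, an abelian variety over `ℚ` of dimension four. Over an
algebraically closed field its points are the families of points of `E` indexed by the embeddings of `F`.
We consider the abelian varieties `A = ∏ Res_{F_i/ℚ} E`, for any finite family of such fields `F_i`, and
`z(A) = L(A, 1) #A(ℚ)_tors² / (V_∞ ∏_p c_p)`, which is zero or the order of `Ш(A)` according to the
conjecture of Birch and Swinnerton-Dyer; here `A` is isomorphic to its dual variety,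
`V_∞ = ∏_i (∏_v Ω_v) / √|disc F_i|` is the volume of `A(ℝ) = ∏_i ∏_v E(ℂ)` for the Néron differential and
`c_p` is the product of the Tamagawa numbers `c_v` of `E` over the `F_i` at the places `v` over `p`.

* For every `D`: with `t` the number of the places of `K` that divide `D`, and `g` the number of the places
  of `F` above `7`, the number `4 ^ g z(A_D)` is divisible by `4 ^ t` at all the valuations of `ℂ` above
  two, and the quotient is a unit iff an explicit matrix over `𝔽₂` of quadratic symbols is not singular, iff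
  the 2-part of the formula holds for `A_D` with `Ш(A_D)[2^∞]` of order exactly `4 ^ (t - g)`: then
  `A_D(ℚ)` is finite and `L(A_D, 1) ≠ 0`. (`D` is called good.)
* The proportion of the good `D` with `#Ш(A_D)[2^∞] ≥ B` among all the `D`, ordered by the norm, is exactly
  `c2 = ∏_{i ≥ 1} (1 - 2^(-i)) = 0.288…`, for every `B`.
* The 2-part of the formula holds for all the products `A = ∏ A_{D_i}` with good `D_i`, of all the dimensions
  `4 m`.
* The joint law: for a good tuple `d_1, …, d_n` (all the `2 ^ n - 1` products `d_T` are good) the proportion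
  of the `e` for which `(d_1, …, d_n, e)` is again good, and `#Ш(A_{e d_T})[2^∞] ≥ B` for all the `2 ^ n` new
  fourfolds `A_{e d_T}`, is exactly `c2 ^ (2 ^ n)`; and there are infinite good sequences.

The lemma of Shapiro `Ш(Res_{F/ℚ} E) = Ш(E/F)` (Milne) is proved in `Pool/Agent/N843/WR/Sh.lean`; the formula
for `E` over `F` is `MP_9ab903_nt/TwoPartX49Quadratic` (helper873), the joint law is that of
`MP_e996df_nt/RefinedTowersX49`.
-/

set_option autoImplicit false

namespace Pool.Agent.Results.MP_dfae13_nt.WeilRestrictionsX49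

open NumberField IsDedekindDomain Filter
open Pool.Agent.Results.MP_cd906c_nt.MultiquadraticX49 (InClass Independent c2)
open Pool.Agent.Results.MP_9ab903_nt.TwoPartX49Quadratic (X49 nPlaces IsPeriods)
open Pool.Agent.Results.MP_e996df_nt.TwoPartTwistsX49 (IsTamagawa period IsL mat torsOrder)
open Pool.Agent.Results.MP_e996df_nt.RefinedTowersX49 (Good family)
open Pool.Agent.N843.WR (RSha RRat)

/-! ### The abelian variety `A = ∏ Res_{F_i/ℚ} X_0(49)` -/

section

variable {ι : Type} [Fintype ι] (F : ι → Type) [∀ i, Field (F i)] [∀ i, NumberField (F i)]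

/-- The order of the torsion subgroup of `A(ℚ) = ∏ Res_{F_i/ℚ} X_0(49) (ℚ)`. -/
noncomputable def torsA : ℕ :=
  Nat.card {P : ∀ i, RRat (X49 ℚ) (F i) // ∃ n : ℕ, 0 < n ∧ ∀ i, n • (P i).1 = 0}

/-- The order of the 2-primary part of `Ш(A)` (zero if it is infinite). -/
noncomputable def shaTwoA : ℕ :=
  Nat.card {x : ∀ i, RSha (X49 ℚ) (F i) // ∃ n : ℕ, 2 ^ n • x = 0}

/-- The volume `V_∞` of `A(ℝ)` for the differential of the Néron model: the product over `i` of the
periods `Ω_v` of `X_0(49)` at the (complex) places `v` of `F_i`, divided by the square root of the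
discriminant. -/
noncomputable def Vinf (Λ : ∀ i, InfinitePlace (F i) → PeriodPair) : ℝ :=
  ∏ i, (∏ v : InfinitePlace (F i), period (Λ i v)) / Real.sqrt |(discr (F i) : ℝ)|

/-- The product of the Tamagawa numbers `c_p = ∏_i ∏_{v | p} c_v`. -/
noncomputable def TamA (c : ∀ i, HeightOneSpectrum (𝓞 (F i)) → ℕ) : ℕ := ∏ i, ∏ᶠ v, c i v

/-- The order of `Ш(A)` predicted by the formula in rank zero, for the value `l` of the L-function at
`s = 1`: `l #A(ℚ)_tors² / (V_∞ ∏ c_p)`. -/
noncomputable def anOrderA (l : ℂ) (Λ : ∀ i, InfinitePlace (F i) → PeriodPair)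
    (c : ∀ i, HeightOneSpectrum (𝓞 (F i)) → ℕ) : ℂ :=
  l * (torsA F : ℂ) ^ 2 / ((Vinf F Λ : ℂ) * (TamA F c : ℂ))

/-- `L(A, s) = ∏_i L(X_0(49)/F_i, s)`, and all the factors are entire. -/
def IsLA (L : ℂ → ℂ) : Prop :=
  ∃ f : ι → ℂ → ℂ, (∀ i, IsL (X49 (F i)) (f i)) ∧ ∀ s, L s = ∏ i, f i s

/-- The 2-part of the formula for `A`, in rank zero: the `F_i` are totally complex, `A(ℚ)` and the
2-primary part of `Ш(A)` are finite, `L(A, s)` is entire, `L(A, 1) ≠ 0`, and the predicted order of `Ш(A)`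
and the order of its 2-primary part have the same valuation at every valuation `w` of the field of complex
numbers with `w 2 < 1`. -/
def TwoPartA : Prop :=
  (∀ i, IsTotallyComplex (F i)) ∧ Finite (∀ i, RRat (X49 ℚ) (F i)) ∧
  Finite {x : ∀ i, RSha (X49 ℚ) (F i) // ∃ n : ℕ, 2 ^ n • x = 0} ∧
  ∃ (L : ℂ → ℂ) (c : ∀ i, HeightOneSpectrum (𝓞 (F i)) → ℕ), IsLA F L ∧ L 1 ≠ 0 ∧
    (∀ i, IsTamagawa (X49 (F i)) (c i)) ∧
    (∃ Λ : ∀ i, InfinitePlace (F i) → PeriodPair, ∀ i, IsPeriods (X49 (F i)) (Λ i)) ∧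
      ∀ Λ : ∀ i, InfinitePlace (F i) → PeriodPair, (∀ i, IsPeriods (X49 (F i)) (Λ i)) →
        ∀ (Γ : Type) [LinearOrderedCommGroupWithZero Γ] (w : Valuation ℂ Γ), w 2 < 1 →
          w (anOrderA F (L 1) Λ c) = w (shaTwoA F : ℂ)

end

/-- One field: `A = Res_{F/ℚ} X_0(49)`. -/
abbrev one (F : Type) : Unit → Type := fun _ => F

/-- `D` is good for `F`: the 2-part of the formula holds for `A_D = Res_{F/ℚ} X_0(49)`, and the order of the
2-primary part of `Ш(A_D)` is `4 ^ (t - g)`, where `t` is the number of the places of `K` that divide `D`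
and `g` is the number of the places of `F` above `7`. -/
def ExactA {K : Type} [Field K] [NumberField K] (D : 𝓞 K) (F : Type) [Field F] [NumberField F] : Prop :=
  TwoPartA (one F) ∧ nPlaces (7 : 𝓞 F) ≤ nPlaces D ∧
    shaTwoA (one F) = 4 ^ (nPlaces D - nPlaces (7 : 𝓞 F))

open scoped Classical in
/-- The statement for `A_D = Res_{F/ℚ} X_0(49)`, where `S` is the set of the prime divisors `p ≡ 1` modulo
`a²` of `D`: the discriminant of `F`, the product of the Tamagawa numbers, the torsion, the valuations of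
the predicted order of `Ш(A_D)`, and the criterion. -/
def CriterionA {K : Type} [Field K] [NumberField K] (a D : 𝓞 K) (S : Finset (𝓞 K)) (F : Type)
    [Field F] [NumberField F] : Prop :=
  (discr F).natAbs = 49 * Ideal.absNorm (Ideal.span {D}) ∧
  (∃ (L : ℂ → ℂ) (c : HeightOneSpectrum (𝓞 F) → ℕ), IsLA (one F) L ∧ IsTamagawa (X49 F) c ∧
    TamA (one F) (fun _ => c) = 4 ^ nPlaces (7 : 𝓞 F) ∧ (∃ t : ℕ, Odd t ∧ torsA (one F) = 4 * t) ∧
    (∃ Λ : InfinitePlace F → PeriodPair, IsPeriods (X49 F) Λ) ∧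
    ∀ Λ : InfinitePlace F → PeriodPair, IsPeriods (X49 F) Λ →
      ∀ (Γ : Type) [LinearOrderedCommGroupWithZero Γ] (w : Valuation ℂ Γ), w 2 < 1 →
        w (4 ^ nPlaces (7 : 𝓞 F) * anOrderA (one F) (L 1) (fun _ => Λ) (fun _ => c)) ≤
          w (4 ^ nPlaces D) ∧
        (w (4 ^ nPlaces (7 : 𝓞 F) * anOrderA (one F) (L 1) (fun _ => Λ) (fun _ => c)) =
          w (4 ^ nPlaces D) ↔ (mat a S).det ≠ 0)) ∧
  (ExactA D F ↔ (mat a S).det ≠ 0) ∧
  ((mat a S).det ≠ 0 → ∀ (n : ℕ) (x : RSha (X49 ℚ) F), 2 ^ n • x = 0 → 2 • x = 0)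

/-- The elements `D ≠ 1` of norm at most `X` of the class for which `D` is good, and the 2-primary part of
`Ш(A_D)` has at least `B` elements. -/
def goodSet {K : Type} [Field K] [NumberField K] (a : 𝓞 K) (B X : ℕ) : Set (𝓞 K) :=
  {D ∈ Pool.Agent.Results.MP_e996df_nt.TwoPartTwistsX49.family a X | D ≠ 1 ∧
    ∀ (F : Type) [Field F] [NumberField F] [Algebra K F], Module.finrank K F = 2 →
      (∃ x : F, x ^ 2 = algebraMap K F (D : K)) → ExactA D F ∧ B ≤ shaTwoA (one F)}

/-- For all the nonempty `T`, up to squares `d_T = ∏_{i ∈ T} d_i` is an `N` in the class, and `N` is good for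
the field `F = K(√d_T)`. -/
def AllGood {K : Type} [Field K] [NumberField K] (a : 𝓞 K) {n : ℕ} (d : Fin n → 𝓞 K) : Prop :=
  ∀ T : Finset (Fin n), T.Nonempty → ∃ N c : 𝓞 K, InClass a N ∧ c ≠ 0 ∧ ∏ i ∈ T, d i = N * c ^ 2 ∧
    ∀ (F : Type) [Field F] [NumberField F] [Algebra K F], Module.finrank K F = 2 →
      (∃ x : F, x ^ 2 = algebraMap K F ((∏ i ∈ T, d i : 𝓞 K) : K)) → ExactA N F

/-- The 2-primary part of `Ш(Res_{F/ℚ} X_0(49))` has at least `B` elements for all the quadratic extensions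
`F = K(√(e d_T))`, `d_T = ∏_{i ∈ T} d_i`, `T` any subset of `{1, …, n}`. -/
def LargeA {K : Type} [Field K] [NumberField K] (B : ℕ) {n : ℕ} (d : Fin n → 𝓞 K) (e : 𝓞 K) :
    Prop :=
  ∀ (T : Finset (Fin n)) (F : Type) [Field F] [NumberField F] [Algebra K F],
    Module.finrank K F = 2 →
      (∃ x : F, x ^ 2 = algebraMap K F ((e * ∏ i ∈ T, d i : 𝓞 K) : K)) → B ≤ shaTwoA (one F)

/-- The elements `e` of the family (the `e` in the class of norm at most `X` that are prime to the `d_i`)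
for which the tuple `(d_1, …, d_n, e)` is independent modulo squares and good, and `LargeA B d e` holds. -/
def next {K : Type} [Field K] [NumberField K] (a : 𝓞 K) (B : ℕ) {n : ℕ} (d : Fin n → 𝓞 K) (X : ℕ) :
    Set (𝓞 K) :=
  {e ∈ family a d X | Independent (Fin.snoc d e : Fin (n + 1) → 𝓞 K) ∧
    Good a (Fin.snoc d e : Fin (n + 1) → 𝓞 K) ∧ LargeA B d e}

section proof

open Pool.Agent.Results.MP_9ab903_nt.TwoPartX49Quadratic (anOrder shaTwo TwoPart Exact)
open Pool.Agent.N843.WR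
open Pool.Agent.TH841.NF
open Pool.Agent.Y682
open Pool.Agent.TH841.SH.D (Pt)

/-- the torsion of one factor -/
lemma tors_one (L : Type) [Field L] [NumberField L] :
    Nat.card {P : RRat (X49 ℚ) L // ∃ n : ℕ, 0 < n ∧ n • P.1 = 0} = torsOrder (X49 L) := by
  classical
  obtain ⟨e, -⟩ := Pool.Agent.N843.TT.Rs.exists_e ℚ L
  have key : ∀ (Q : Pt (X49 L) L) (n : ℕ), n • (toR (scX L) Q).1 = 0 ↔ n • Q = 0 := by
    intro Q n
    constructor
    · intro h
      have h1 : n • tm (sc_any (scX L) ((emA e : L →ₐ[ℚ] Qb) : L →+* Qb)) Q = 0 := congrFun h (emA e)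
      rw [← map_nsmul] at h1
      exact tm_inj _ (h1.trans (map_zero _).symm)
    · intro h
      funext t
      show n • tm (sc_any (scX L) (t : L →+* Qb)) Q = 0
      rw [← map_nsmul, h, map_zero]
  unfold torsOrder
  refine (Nat.card_congr ((Equiv.ofBijective _ (toR_bij (scX L))).subtypeEquiv fun Q => ?_)).symm
  show IsOfFinAddOrder Q ↔ _
  rw [isOfFinAddOrder_iff_nsmul_eq_zero]
  refine exists_congr fun n => and_congr_right fun _ => ?_
  exact (key Q n).symm

/-- the 2-primary part for one factor -/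
lemma sha_one (L : Type) [Field L] [NumberField L] :
    Nat.card {x : RSha (X49 ℚ) L // ∃ n : ℕ, 2 ^ n • x = 0} = shaTwo (X49 L) := by
  obtain ⟨φ⟩ := exists_iso L
  refine Nat.card_congr (φ.toEquiv.subtypeEquiv fun x => exists_congr fun n => ?_)
  show 2 ^ n • x = 0 ↔ 2 ^ n • φ x = 0
  rw [← map_nsmul, map_eq_zero_iff _ φ.injective]

lemma sha_fin (L : Type) [Field L] [NumberField L] :
    Finite {x : RSha (X49 ℚ) L // ∃ n : ℕ, 2 ^ n • x = 0} ↔
      Finite {x : Pool.Agent.TH841.NF.D.Sha (X49 L) // ∃ n : ℕ, 2 ^ n • x = 0} := by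
  obtain ⟨φ⟩ := exists_iso L
  refine Equiv.finite_iff (φ.toEquiv.subtypeEquiv fun x => exists_congr fun n => ?_)
  show 2 ^ n • x = 0 ↔ 2 ^ n • φ x = 0
  rw [← map_nsmul, map_eq_zero_iff _ φ.injective]

lemma rat_fin (L : Type) [Field L] [NumberField L] :
    Finite (RRat (X49 ℚ) L) ↔ Finite (X49 L).toAffine.Point :=
  (Equiv.finite_iff (Equiv.ofBijective _ (toR_bij (scX L)))).symm

variable {ι : Type} [Fintype ι] (F : ι → Type) [∀ i, Field (F i)] [∀ i, NumberField (F i)]

lemma torsA_eq : torsA F = ∏ i, torsOrder (X49 (F i)) := by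
  classical
  unfold torsA
  rw [Finset.prod_congr rfl fun i _ => (tors_one (F i)).symm, ← Nat.card_pi]
  refine Nat.card_congr ⟨fun P i => ⟨P.1 i, ?_⟩, fun P => ⟨fun i => (P i).1, ?_⟩, fun P => rfl,
    fun P => rfl⟩
  · obtain ⟨n, h1, h2⟩ := P.2
    exact ⟨n, h1, h2 i⟩
  · choose n h1 h2 using fun i => (P i).2
    refine ⟨∏ i, n i, Finset.prod_pos fun i _ => h1 i, fun i => ?_⟩
    obtain ⟨m, hm⟩ := Finset.dvd_prod_of_mem n (Finset.mem_univ i)
    rw [hm, mul_comm, mul_smul, h2, smul_zero]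

/-- the 2-primary part of a product -/
noncomputable def shaEquiv : {x : ∀ i, RSha (X49 ℚ) (F i) // ∃ n : ℕ, 2 ^ n • x = 0} ≃
    ∀ i, {x : RSha (X49 ℚ) (F i) // ∃ n : ℕ, 2 ^ n • x = 0} where
  toFun x i := ⟨x.1 i, by
    obtain ⟨n, h⟩ := x.2
    exact ⟨n, congrFun h i⟩⟩
  invFun x := ⟨fun i => (x i).1, by
    choose n h using fun i => (x i).2
    refine ⟨∑ i, n i, funext fun i => ?_⟩
    show 2 ^ (∑ i, n i) • (x i).1 = 0
    obtain ⟨m, hm⟩ := Nat.exists_eq_add_of_le (Finset.single_le_sum (f := n)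
      (fun j _ => Nat.zero_le _) (Finset.mem_univ i))
    rw [hm, pow_add, mul_comm, mul_smul, h, smul_zero]⟩
  left_inv x := rfl
  right_inv x := rfl

lemma shaTwoA_eq : shaTwoA F = ∏ i, shaTwo (X49 (F i)) := by
  unfold shaTwoA
  rw [Nat.card_congr (shaEquiv F), Nat.card_pi]
  exact Finset.prod_congr rfl fun i _ => sha_one (F i)

lemma an_eq (l : ι → ℂ) (Λ : ∀ i, InfinitePlace (F i) → PeriodPair)
    (c : ∀ i, HeightOneSpectrum (𝓞 (F i)) → ℕ) :
    anOrderA F (∏ i, l i) Λ c = ∏ i, anOrder (X49 (F i)) (l i) (Λ i) (c i) := by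
  unfold anOrderA anOrder Vinf TamA
  rw [torsA_eq]
  push_cast
  rw [← Finset.prod_pow, ← Finset.prod_mul_distrib, ← Finset.prod_mul_distrib,
    ← Finset.prod_div_distrib]
  refine Finset.prod_congr rfl fun i _ => ?_
  rw [div_mul_eq_mul_div, div_div_eq_mul_div]
  congr 1
  ring

/-- the 2-part for a product -/
lemma twoPartA_of (h : ∀ i, TwoPart (X49 (F i))) : TwoPartA F := by
  have h1 : ∀ i, Finite (RRat (X49 ℚ) (F i)) := fun i => (rat_fin (F i)).2 (h i).2.1
  have h2 : ∀ i, Finite {x : RSha (X49 ℚ) (F i) // ∃ n : ℕ, 2 ^ n • x = 0} := fun i =>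
    (sha_fin (F i)).2 (h i).2.2.1
  choose f c hf hf1 hc hper hval using fun i => (h i).2.2.2
  choose Λ0 hΛ0 using hper
  refine ⟨fun i => (h i).1, inferInstance, Finite.of_equiv _ (shaEquiv F).symm,
    fun s => ∏ i, f i s, c, ⟨f, hf, fun _ => rfl⟩, ?_, hc, ⟨Λ0, hΛ0⟩, fun Λ hΛ Γ _ w hw => ?_⟩
  · exact Finset.prod_ne_zero_iff.2 fun i _ => hf1 i
  · rw [an_eq F (fun i => f i 1), shaTwoA_eq, map_prod]
    push_cast
    rw [map_prod]
    exact Finset.prod_congr rfl fun i _ => hval i (Λ i) (hΛ i) Γ w hw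

lemma an_one (L : Type) [Field L] [NumberField L] (l : ℂ) (Λ : InfinitePlace L → PeriodPair)
    (c : HeightOneSpectrum (𝓞 L) → ℕ) :
    anOrderA (one L) l (fun _ => Λ) (fun _ => c) = anOrder (X49 L) l Λ c := by
  have h1 := an_eq (one L) (fun _ => l) (fun _ => Λ) (fun _ => c)
  rw [Finset.univ_unique, Finset.prod_singleton, Finset.prod_singleton] at h1
  exact h1

lemma sha_single (L : Type) [Field L] [NumberField L] : shaTwoA (one L) = shaTwo (X49 L) := by
  rw [shaTwoA_eq, Finset.univ_unique, Finset.prod_singleton]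

lemma tors_single (L : Type) [Field L] [NumberField L] : torsA (one L) = torsOrder (X49 L) := by
  rw [torsA_eq, Finset.univ_unique, Finset.prod_singleton]

lemma twoPartA_one (L : Type) [Field L] [NumberField L] : TwoPartA (one L) ↔ TwoPart (X49 L) := by
  constructor
  · rintro ⟨h1, h2, h3, g, c, ⟨f, hf, hfg⟩, hg1, hc, ⟨Λ0, hΛ0⟩, hval⟩
    have e1 : ∀ s, g s = f () s := fun s => by
      rw [hfg, Finset.univ_unique, Finset.prod_singleton]
    refine ⟨h1 (), (rat_fin L).1 ?_, (sha_fin L).1 ?_, f (), c (), hf (), ?_, hc (), ⟨Λ0 (), hΛ0 ()⟩,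
      fun Λ hΛ Γ _ w hw => ?_⟩
    · exact Finite.of_injective (fun P : RRat (X49 ℚ) L => (fun _ => P : ∀ _ : Unit, RRat (X49 ℚ) L))
        fun P Q h => congrFun h ()
    · exact Finite.of_injective (fun x => (shaEquiv (one L)).symm fun _ => x)
        fun x y h => congrFun ((shaEquiv (one L)).symm.injective h) ()
    · rw [← e1]
      exact hg1
    · have h4 := hval (fun _ => Λ) (fun _ => hΛ) Γ w hw
      rw [sha_single, e1] at h4
      have h5 := an_one L (f () 1) Λ (c ())
      rw [← h5]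
      exact h4
  · intro h
    exact twoPartA_of (one L) fun _ => h

lemma exactA_iff {K : Type} [Field K] [NumberField K] {D : 𝓞 K} {L : Type} [Field L]
    [NumberField L] : ExactA D L ↔ Exact D L := by
  unfold ExactA Exact
  rw [twoPartA_one, sha_single]

lemma kill_two {L : Type} [Field L] [NumberField L]
    (h : ∀ (n : ℕ) (x : Pool.Agent.TH841.NF.D.Sha (X49 L)), 2 ^ n • x = 0 → 2 • x = 0) (n : ℕ)
    (x : RSha (X49 ℚ) L) (hx : 2 ^ n • x = 0) : 2 • x = 0 := by
  have h1 := kill_of L (n := 1) (fun k y hy => by rw [pow_one]; exact h k y hy) n x hx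
  rwa [pow_one] at h1

open scoped Classical in
lemma criterionA_of {K : Type} [Field K] [NumberField K] {a D : 𝓞 K} {S : Finset (𝓞 K)} {L : Type}
    [Field L] [NumberField L]
    (h : Pool.Agent.Results.MP_9ab903_nt.TwoPartX49Quadratic.Criterion a D S L (nPlaces (7 : 𝓞 L)))
    (hE : Exact D L ↔ (mat a S).det ≠ 0) : CriterionA a D S L := by
  obtain ⟨h1, h2, -, ⟨f, c, hf, -, hc, ht, ho, hper, hval⟩, h5⟩ := h
  refine ⟨h1, ⟨f, c, ⟨fun _ => f, fun _ => hf, fun s => ?_⟩, hc, ?_, ?_, hper, ?_⟩, ?_, ?_⟩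
  · rw [Finset.univ_unique, Finset.prod_singleton]
  · unfold TamA
    rw [Finset.univ_unique, Finset.prod_singleton]
    exact ht
  · rw [tors_single]
    exact ho
  · intro Λ hΛ Γ _ w hw
    rw [an_one, ← h2]
    exact hval Λ hΛ Γ w hw
  · rw [exactA_iff]
    exact hE
  · intro hd
    exact kill_two (h5 hd).2.2.2

end proof

/-- **Main theorem.** Let `K = ℚ(√-7)`.
(1) The criterion for the 2-part of the leading term formula for the abelian fourfolds
`A_D = Res_{F/ℚ} X_0(49)`, `F = K(√D)`, for all the `D ≠ 1` in the class.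
(2) The exact proportion `c2` of the good `D`, with large `Ш(A_D)[2^∞]`.
(3) The formula for the products `∏ A_{D_i}`, `D_i` good, of all dimensions `4 m`.
(4) The joint law for good tuples, and infinite good sequences. -/
theorem result (K : Type) [Field K] [NumberField K] (a : 𝓞 K) (ha : a ^ 2 = a - 2)
    (hK : Module.finrank ℚ K = 2) :
    (∀ D : 𝓞 K, InClass a D → D ≠ 1 → ∀ (F : Type) [Field F] [NumberField F] [Algebra K F],
      Module.finrank K F = 2 → (∃ x : F, x ^ 2 = algebraMap K F (D : K)) →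
        Module.finrank ℚ F = 4 ∧
        ∃ S : Finset (𝓞 K), (∀ p, p ∈ S ↔ Prime p ∧ p ∣ D ∧ a ^ 2 ∣ p - 1) ∧ ∏ p ∈ S, p = D ∧
          CriterionA a D S F) ∧
    (∀ B : ℕ, Tendsto (fun X : ℕ => ((goodSet a B X).ncard : ℝ) /
        ((Pool.Agent.Results.MP_e996df_nt.TwoPartTwistsX49.family a X).ncard : ℝ)) atTop (nhds c2) ∧
      ∃ δ : ℝ, 0 < δ ∧ ∀ᶠ X : ℕ in atTop, δ * X ≤ ((goodSet a B X).ncard : ℝ)) ∧
    (∀ (ι : Type) [Fintype ι] (D : ι → 𝓞 K) (F : ι → Type) [∀ i, Field (F i)]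
      [∀ i, NumberField (F i)], (∀ i, ExactA (D i) (F i)) →
        TwoPartA F ∧ shaTwoA F = ∏ i, 4 ^ (nPlaces (D i) - nPlaces (7 : 𝓞 (F i)))) ∧
    (∀ d : Fin 0 → 𝓞 K, Good a d) ∧
    (∀ (n : ℕ) (d : Fin n → 𝓞 K), (∀ i, InClass a (d i)) → Independent d → Good a d →
      AllGood a d ∧
      (∀ B : ℕ, Tendsto (fun X : ℕ => ((next a B d X).ncard : ℝ) / ((family a d X).ncard : ℝ)) atTop
        (nhds (c2 ^ (2 ^ n)))) ∧
      (∃ δ : ℝ, 0 < δ ∧ ∀ᶠ X : ℕ in atTop, δ * X ≤ ((family a d X).ncard : ℝ)) ∧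
      ∃ q : ℕ → 𝓞 K, (∀ j, InClass a (q j)) ∧
        ∀ k, Independent (Fin.append d fun i : Fin k => q i) ∧
        Good a (Fin.append d fun i : Fin k => q i) ∧
        AllGood a (Fin.append d fun i : Fin k => q i) ∧
        LargeA k (Fin.append d fun i : Fin k => q i) (q k)) ∧
    0.288 < c2 ∧ c2 < 0.289 := by
  classical
  obtain ⟨r1, r2, r3, r4⟩ := Pool.Agent.Results.MP_9ab903_nt.TwoPartX49Quadratic.result K a ha hK
  obtain ⟨s1, s2⟩ := Pool.Agent.Results.MP_e996df_nt.RefinedTowersX49.result K a ha hK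
  have hall : ∀ (n : ℕ) (d : Fin n → 𝓞 K),
      Pool.Agent.Results.MP_e996df_nt.RefinedTowersX49.Refined a d → AllGood a d := by
    intro n d h T hT
    obtain ⟨N, c, h1, h2, h3, h4⟩ := h T hT
    exact ⟨N, c, h1, h2, h3, fun F _ _ _ hF hx => exactA_iff.2 (h4 F hF hx)⟩
  have hlarge : ∀ (B n : ℕ) (d : Fin n → 𝓞 K) (e : 𝓞 K),
      Pool.Agent.Results.MP_e996df_nt.RefinedTowersX49.Large B d e ↔ LargeA B d e := by
    intro B n d e
    constructor
    · intro h T F _ _ _ hF hx
      rw [sha_single]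
      exact h T F hF hx
    · intro h T F _ _ _ hF hx
      have h1 := h T F hF hx
      rwa [sha_single] at h1
  have hnext : ∀ (B n : ℕ) (d : Fin n → 𝓞 K) (X : ℕ),
      Pool.Agent.Results.MP_e996df_nt.RefinedTowersX49.next a B d X = next a B d X := by
    intro B n d X
    unfold Pool.Agent.Results.MP_e996df_nt.RefinedTowersX49.next next
    ext e
    simp only [Set.mem_ofPred_eq, hlarge]
  have hgood : ∀ B X : ℕ,
      Pool.Agent.Results.MP_9ab903_nt.TwoPartX49Quadratic.goodSet a B X = goodSet a B X := by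
    intro B X
    unfold Pool.Agent.Results.MP_9ab903_nt.TwoPartX49Quadratic.goodSet goodSet
    ext D
    simp only [Set.mem_ofPred_eq, exactA_iff, sha_single]
  refine ⟨fun D hD hD1 F _ _ _ hF hx => ⟨?_, ?_⟩, fun B => ⟨?_, ?_⟩, ?_, s1, ?_, r3, r4⟩
  · rw [← Module.finrank_mul_finrank ℚ K F, hK, hF]
  · obtain ⟨S, h1, h2, h3, h4⟩ := r1 D hD.2.1 hD.1 hD.2.2 hD1 F hF hx
    exact ⟨S, h1, h2, criterionA_of h3 h4⟩
  · simp only [← hgood]
    exact (r2 B).1
  · simp only [← hgood]
    exact (r2 B).2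
  · intro ι _ D F _ _ h
    have h1 : ∀ i, Pool.Agent.Results.MP_9ab903_nt.TwoPartX49Quadratic.Exact (D i) (F i) := fun i =>
      exactA_iff.1 (h i)
    refine ⟨twoPartA_of F fun i => (h1 i).1, ?_⟩
    rw [shaTwoA_eq]
    exact Finset.prod_congr rfl fun i _ => (h1 i).2.2
  · intro n d hd hind hg
    obtain ⟨-, g2, g3, g4, ⟨q, q1, -, q2⟩, -, -⟩ := s2 n d hd hind hg
    refine ⟨hall n d g2, fun B => ?_, g4, q, q1, fun k => ?_⟩
    · simp only [← hnext]
      exact g3 B
    · obtain ⟨k1, k2, -, k4, k5⟩ := q2 k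
      exact ⟨k1, k2, hall _ _ k4, (hlarge _ _ _ _).1 k5⟩

end Pool.Agent.Results.MP_dfae13_nt.WeilRestrictionsX49
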